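import Pool.Agent.Helper64.C18.T3
import Pool.Agent.Helper64.C18.B1

set_option autoImplicit false

/-! Project C18: the base field is algebraically closed in the function field -/

namespace Pool.Agent.Helper16.C18.H

variable {A : Type*} [Field A] [CharZero A] {K Om : Subfield A} {θ ξ : Fin 3 → A}

omit [CharZero A] in
theorem rat_of_mem {L : Subfield A} (hi : Function.Injective θ) (h : ∀ j, θ j ∈ L)
    (hx : ∀ j, ξ j ∈ L) : Rat L θ ξ := by
  have hT : T θ ∈ L := L.add_mem (L.add_mem (h 0) (h 1)) (h 2)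
  have hs : ∀ j, sh θ j ∈ L := by
    intro j
    fin_cases j
    · exact L.mul_mem (h 1) (h 2)
    · exact L.mul_mem (h 2) (h 0)
    · exact L.mul_mem (h 0) (h 1)
  have hD : ∀ j, Dt θ j ∈ L := by
    intro j
    fin_cases j
    · exact L.mul_mem (L.sub_mem (h 0) (h 1)) (L.sub_mem (h 0) (h 2))
    · exact L.mul_mem (L.sub_mem (h 1) (h 2)) (L.sub_mem (h 1) (h 0))
    · exact L.mul_mem (L.sub_mem (h 2) (h 0)) (L.sub_mem (h 2) (h 1))
  have T3 : ∀ f : Fin 3 → A, (∀ j, f j ∈ L) → T f ∈ L := fun f hf =>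
    L.add_mem (L.add_mem (hf 0) (hf 1)) (hf 2)
  exact ⟨_, T3 _ fun j => L.div_mem (L.mul_mem (hx j) (hs j)) (hD j), _,
    T3 _ fun j => L.div_mem (L.mul_mem (hx j) (L.sub_mem (h j) hT)) (hD j), _,
    T3 _ fun j => L.div_mem (hx j) (hD j), fun j => lagrange hi ξ j⟩

omit [CharZero A] in
theorem nf_sym {n c : A} (e : nf n c ξ = 0) {i j l : Fin 3} (hij : i ≠ j) (hil : i ≠ l)
    (hjl : j ≠ l) : ξ l * (ξ i * ξ j + n) = -(n * (ξ i + ξ j + c)) := by
  have e' : ξ 0 * ξ 1 * ξ 2 + n * (ξ 0 + ξ 1 + ξ 2 + c) = 0 := e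
  fin_cases i <;> fin_cases j <;> fin_cases l <;> first
    | exact absurd rfl hij
    | exact absurd rfl hil
    | exact absurd rfl hjl
    | (simp only [Fin.zero_eta, Fin.mk_one, Fin.reduceFinMk]; linear_combination e')

/-- (AC) -/
theorem ac [IsAlgClosed A] (hK : K ≤ Om) (hC : Fd K θ) {n c : A} (hn : n ∈ K) (hc : c ∈ K)
    (hn0 : n ≠ 0) (hξ : Rat Om θ ξ) (e : nf n c ξ = 0) (hg : GenA K Om θ ξ) (ht : Tr2 K Om)
    {z : A} (hz : z ∈ Om) (ha : IsAlgebraic K z) : z ∈ K := by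
  classical
  let F : IntermediateField K A := algebraicClosure K A
  let Kb : Subfield A := F.toSubfield
  have hmem : ∀ x : A, x ∈ Kb ↔ IsAlgebraic K x := fun x => mem_algebraicClosure_iff
  have hKKb : K ≤ Kb := fun x hx => (hmem x).2 (isAlgebraic_algebraMap (⟨x, hx⟩ : K))
  have hKb : AlgOver K Kb := fun x hx => (hmem x).1 hx
  have hθ : ∀ j, θ j ∈ Kb := by
    intro j
    rw [hmem]
    refine ⟨cubP hC.cub, (cubP_monic hC.cub).ne_zero, ?_⟩
    rw [cubP_aeval]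
    fin_cases j <;> simp
  have gen_le : ∀ L : Subfield A, Kb ≤ L → (∀ j, ξ j ∈ L) → Om ≤ L := by
    intro L hL hx
    have h1 : Rat L θ ξ := rat_of_mem hC.cub.inj (fun j => hL (hθ j)) hx
    have h2 : Rat (Om ⊓ L) θ ξ := Rat.inf hC.cub.inj hξ h1
    exact (hg _ (le_inf hK (hKKb.trans hL)) inf_le_left h2).trans inf_le_right
  have nz : ∀ i j l : Fin 3, i ≠ j → i ≠ l → j ≠ l → ξ i * ξ j + n ≠ 0 := by
    intro i j l hij hil hjl h0
    have h1 := nf_sym e hij hil hjl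
    rw [h0, mul_zero] at h1
    have h2 : ξ i + ξ j + c = 0 := by
      rcases mul_eq_zero.1 (neg_eq_zero.1 h1.symm) with h | h
      · exact absurd h hn0
      · exact h
    have hi : ξ i ∈ Kb := by
      rw [hmem]
      refine ⟨Polynomial.X ^ 2 + Polynomial.C (⟨c, hc⟩ : K) * Polynomial.X
        - Polynomial.C (⟨n, hn⟩ : K), ?_, ?_⟩
      · intro h
        have := congrArg (fun p => Polynomial.coeff p 2) h
        simp at this
      · simp only [map_sub, map_add, map_mul, map_pow, Polynomial.aeval_X, Polynomial.aeval_C]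
        change ξ i ^ 2 + c * ξ i - n = 0
        linear_combination ξ i * h2 - h0
    have hj : ξ j ∈ Kb := by
      have : ξ j = -c - ξ i := by linear_combination h2
      rw [this]
      exact Kb.sub_mem (Kb.neg_mem (hKKb hc)) hi
    have h3 : Om ≤ ad Kb {ξ l} := by
      apply gen_le _ (le_ad Kb _)
      intro m
      have hm : m = i ∨ m = j ∨ m = l := by
        fin_cases i <;> fin_cases j <;> fin_cases l <;> fin_cases m <;> simp_all
      rcases hm with rfl | rfl | rfl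
      · exact le_ad Kb _ hi
      · exact le_ad Kb _ hj
      · exact mem_ad rfl
    exact ht.not_one hKKb hKb (x0 := ξ l) fun w hw =>
      isAlgebraic_algebraMap (⟨w, h3 hw⟩ : ad Kb {ξ l})
  have hle : ∀ i j l : Fin 3, i ≠ j → i ≠ l → j ≠ l → Om ≤ ad Kb {ξ i, ξ j} := by
    intro i j l hij hil hjl
    apply gen_le _ (le_ad Kb _)
    have hi : ξ i ∈ ad Kb {ξ i, ξ j} := mem_ad (by simp)
    have hj : ξ j ∈ ad Kb {ξ i, ξ j} := mem_ad (by simp)
    have hnA : n ∈ ad Kb {ξ i, ξ j} := le_ad Kb _ (hKKb hn)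
    have hcA : c ∈ ad Kb {ξ i, ξ j} := le_ad Kb _ (hKKb hc)
    intro m
    have hm : m = i ∨ m = j ∨ m = l := by
      fin_cases i <;> fin_cases j <;> fin_cases l <;> fin_cases m <;> simp_all
    rcases hm with rfl | rfl | rfl
    · exact hi
    · exact hj
    · have h1 := nf_sym e hij hil hjl
      have : ξ m = -(n * (ξ i + ξ j + c)) / (ξ i * ξ j + n) := by
        rw [eq_div_iff (nz i j m hij hil hjl)]
        exact h1
      rw [this]
      exact div_mem (neg_mem (mul_mem hnA (add_mem (add_mem hi hj) hcA)))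
        (add_mem (mul_mem hi hj) hnA)
  have hind : ∀ i j l : Fin 3, i ≠ j → i ≠ l → j ≠ l → AlgebraicIndependent Kb ![ξ i, ξ j] :=
    fun i j l hij hil hjl => ht.indep hKKb hKb (hle i j l hij hil hjl)
  by_contra hzK
  have hzF : z ∈ F := (hmem z).2 ha
  have hex : ∃ τ : F ≃ₐ[K] F, τ ⟨z, hzF⟩ ≠ ⟨z, hzF⟩ := by
    by_contra h
    push Not at h
    have h1 := (InfiniteGalois.mem_bot_iff_fixed (k := K) (K := F) ⟨z, hzF⟩).2 h
    rw [IntermediateField.mem_bot] at h1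
    obtain ⟨w, hw⟩ := h1
    apply hzK
    have h2 : (w : A) = z := congrArg Subtype.val hw
    rw [← h2]
    exact w.2
  obtain ⟨τ, hτ⟩ := hex
  have hroot : ∀ j, ∃ i, ((τ ⟨θ j, hθ j⟩ : F) : A) = θ i := by
    intro j
    have h1 : Polynomial.aeval (⟨θ j, hθ j⟩ : F) (cubP hC.cub) = 0 := by
      apply Subtype.ext
      have : ((Polynomial.aeval (⟨θ j, hθ j⟩ : F) (cubP hC.cub) : F) : A)
          = Polynomial.aeval (θ j) (cubP hC.cub) := by
        exact (Polynomial.aeval_algebraMap_apply A (⟨θ j, hθ j⟩ : F) (cubP hC.cub)).symm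
      rw [this, cubP_aeval]
      fin_cases j <;> simp
    have h2 : Polynomial.aeval (τ ⟨θ j, hθ j⟩) (cubP hC.cub) = 0 := by
      have := Polynomial.aeval_algHom_apply (τ : F →ₐ[K] F) (⟨θ j, hθ j⟩ : F) (cubP hC.cub)
      rw [h1, map_zero] at this
      exact this
    have h3 : Polynomial.aeval ((τ ⟨θ j, hθ j⟩ : F) : A) (cubP hC.cub) = 0 := by
      have := Polynomial.aeval_algebraMap_apply A (τ ⟨θ j, hθ j⟩ : F) (cubP hC.cub)
      rw [h2, map_zero] at this
      exact this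
    rw [cubP_aeval] at h3
    rcases mul_eq_zero.1 h3 with h4 | h4
    · rcases mul_eq_zero.1 h4 with h5 | h5
      · exact ⟨0, sub_eq_zero.1 h5⟩
      · exact ⟨1, sub_eq_zero.1 h5⟩
    · exact ⟨2, sub_eq_zero.1 h4⟩
  choose π hπ using hroot
  have hπi : Function.Injective π := by
    intro a b hab
    apply hC.cub.inj
    have h1 : τ ⟨θ a, hθ a⟩ = τ ⟨θ b, hθ b⟩ := Subtype.ext (by rw [hπ, hπ, hab])
    exact congrArg Subtype.val (τ.injective h1)
  have hπs : Function.Surjective π := Finite.surjective_of_injective hπi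
  let σ : Kb ≃+* Kb :=
    { toFun := fun x => ⟨τ ⟨x.1, x.2⟩, (τ ⟨x.1, x.2⟩ : F).2⟩
      invFun := fun x => ⟨τ.symm ⟨x.1, x.2⟩, (τ.symm ⟨x.1, x.2⟩ : F).2⟩
      left_inv := fun x => Subtype.ext (congrArg Subtype.val (τ.symm_apply_apply ⟨x.1, x.2⟩))
      right_inv := fun x => Subtype.ext (congrArg Subtype.val (τ.apply_symm_apply ⟨x.1, x.2⟩))
      map_mul' := fun x y => Subtype.ext
        (congrArg Subtype.val (map_mul τ (⟨x.1, x.2⟩ : F) ⟨y.1, y.2⟩))
      map_add' := fun x y => Subtype.ext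
        (congrArg Subtype.val (map_add τ (⟨x.1, x.2⟩ : F) ⟨y.1, y.2⟩)) }
  have p01 : π 0 ≠ π 1 := fun h => by simpa using hπi h
  have p02 : π 0 ≠ π 2 := fun h => by simpa using hπi h
  have p12 : π 1 ≠ π 2 := fun h => by simpa using hπi h
  obtain ⟨s, hs, hs0, hs1⟩ := exists_ext σ
    (hind 0 1 2 (by decide) (by decide) (by decide)) (hind (π 0) (π 1) (π 2) p01 p02 p12)
  have hOm := hle 0 1 2 (by decide) (by decide) (by decide)
  have hsK : ∀ (x : A) (hx : x ∈ K), s ⟨x, le_ad Kb _ (hKKb hx)⟩ = x := by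
    intro x hx
    rw [hs x (hKKb hx)]
    exact congrArg Subtype.val (τ.commutes (⟨x, hx⟩ : K))
  have hξm : ∀ j, ξ j ∈ ad Kb {ξ 0, ξ 1} := by
    intro j
    obtain ⟨a, ha', b, hb', d, hd', e'⟩ := hξ
    rw [e' j]
    have := le_ad Kb {ξ 0, ξ 1} (hθ j)
    exact add_mem (add_mem (hOm ha') (mul_mem (hOm hb') this))
      (mul_mem (hOm hd') (pow_mem this 2))
  have hs2 : s ⟨ξ 2, hξm 2⟩ = ξ (π 2) := by
    have h1 := nf_sym e (i := 0) (j := 1) (l := 2) (by decide) (by decide) (by decide)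
    have h2 := nf_sym e p01 p02 p12
    have h3 : (⟨ξ 2, hξm 2⟩ : ad Kb {ξ 0, ξ 1}) * (⟨ξ 0, mem_ad (by simp)⟩
        * ⟨ξ 1, mem_ad (by simp)⟩ + ⟨n, le_ad Kb _ (hKKb hn)⟩)
        = -(⟨n, le_ad Kb _ (hKKb hn)⟩ * (⟨ξ 0, mem_ad (by simp)⟩ + ⟨ξ 1, mem_ad (by simp)⟩
          + ⟨c, le_ad Kb _ (hKKb hc)⟩)) := Subtype.ext h1
    have h4 := congrArg s h3
    simp only [map_mul, map_add, map_neg, hs0, hs1, hsK n hn, hsK c hc] at h4
    rw [← h2] at h4
    exact mul_right_cancel₀ (nz _ _ _ p01 p02 p12) h4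
  let L : Subfield A :=
    { carrier := {x | x ∈ Om ∧ ∃ h : x ∈ ad Kb {ξ 0, ξ 1}, s ⟨x, h⟩ = x}
      mul_mem' := by
        rintro x y ⟨hx, hx1, hx2⟩ ⟨hy, hy1, hy2⟩
        exact ⟨mul_mem hx hy, mul_mem hx1 hy1, by
          have := map_mul s ⟨x, hx1⟩ ⟨y, hy1⟩
          rw [hx2, hy2] at this
          exact this⟩
      one_mem' := ⟨one_mem _, one_mem _, map_one s⟩
      add_mem' := by
        rintro x y ⟨hx, hx1, hx2⟩ ⟨hy, hy1, hy2⟩
        exact ⟨add_mem hx hy, add_mem hx1 hy1, by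
          have := map_add s ⟨x, hx1⟩ ⟨y, hy1⟩
          rw [hx2, hy2] at this
          exact this⟩
      zero_mem' := ⟨zero_mem _, zero_mem _, map_zero s⟩
      neg_mem' := by
        rintro x ⟨hx, hx1, hx2⟩
        exact ⟨neg_mem hx, neg_mem hx1, by
          have := map_neg s ⟨x, hx1⟩
          rw [hx2] at this
          exact this⟩
      inv_mem' := by
        rintro x ⟨hx, hx1, hx2⟩
        exact ⟨inv_mem hx, inv_mem hx1, by
          have := map_inv₀ s ⟨x, hx1⟩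
          rw [hx2] at this
          exact this⟩ }
  have hKL : K ≤ L := fun x hx => ⟨hK hx, le_ad Kb _ (hKKb hx), hsK x hx⟩
  have hLO : L ≤ Om := fun x hx => hx.1
  have hRat : Rat L θ ξ := by
    obtain ⟨a, ha', b, hb', d, hd', e'⟩ := hξ
    have hsξ : ∀ j, s ⟨ξ j, hξm j⟩ = ξ (π j) := by
      intro j
      fin_cases j
      · exact hs0
      · exact hs1
      · exact hs2
    have hsθ : ∀ j, s ⟨θ j, le_ad Kb _ (hθ j)⟩ = θ (π j) := by
      intro j
      rw [hs (θ j) (hθ j)]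
      exact hπ j
    have key : ∀ i, (s ⟨a, hOm ha'⟩ - a) + (s ⟨b, hOm hb'⟩ - b) * θ i
        + (s ⟨d, hOm hd'⟩ - d) * θ i ^ 2 = 0 := by
      intro i
      obtain ⟨j, rfl⟩ := hπs i
      have h1 : (⟨ξ j, hξm j⟩ : ad Kb {ξ 0, ξ 1}) = ⟨a, hOm ha'⟩
          + ⟨b, hOm hb'⟩ * ⟨θ j, le_ad Kb _ (hθ j)⟩
          + ⟨d, hOm hd'⟩ * ⟨θ j, le_ad Kb _ (hθ j)⟩ ^ 2 := Subtype.ext (e' j)
      have h2 := congrArg s h1
      simp only [map_add, map_mul, map_pow, hsξ, hsθ] at h2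
      have h3 := e' (π j)
      linear_combination h3 - h2
    obtain ⟨k1, k2, k3⟩ := coord_unique hC.cub.inj key
    exact ⟨a, ⟨ha', hOm ha', sub_eq_zero.1 k1⟩, b, ⟨hb', hOm hb', sub_eq_zero.1 k2⟩,
      d, ⟨hd', hOm hd', sub_eq_zero.1 k3⟩, e'⟩
  have hzL := hg L hKL hLO hRat hz
  obtain ⟨-, h1, h2⟩ := hzL
  apply hτ
  apply Subtype.ext
  have h3 := hs z ((hmem z).2 ha)
  change ((τ ⟨z, hzF⟩ : F) : A) = z
  exact h3.symm.trans h2

end Pool.Agent.Helper16.C18.H
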