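import Pool.Agent.Helper16.C18.Amitsur

/-!
# The twisted field of homogeneous fractions
-/

namespace Pool.Agent.Helper16.C18

open MvPolynomial

section frac

variable {k : Type*} [Field k]

/-- the rational function field -/
abbrev FF (k : Type*) [Field k] := FractionRing (MvPolynomial (Fin 3) k)

/-- constants -/
noncomputable def cF (k : Type*) [Field k] : k →+* FF k :=
  (algebraMap (MvPolynomial (Fin 3) k) (FF k)).comp C

/-- the variables -/
noncomputable def xF (k : Type*) [Field k] (i : Fin 3) : FF k :=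
  algebraMap (MvPolynomial (Fin 3) k) (FF k) (X i)

/-- degree zero homogeneous fractions -/
noncomputable def FF0 (k : Type*) [Field k] : Subfield (FF k) where
  carrier := {g | ∃ (n : ℕ) (p q : MvPolynomial (Fin 3) k), p.IsHomogeneous n ∧
    q.IsHomogeneous n ∧ q ≠ 0 ∧ g = algebraMap _ _ p / algebraMap _ _ q}
  mul_mem' := by
    rintro _ _ ⟨n, p, q, hp, hq, hq0, rfl⟩ ⟨n', p', q', hp', hq', hq0', rfl⟩
    exact ⟨n + n', p * p', q * q', hp.mul hp', hq.mul hq', mul_ne_zero hq0 hq0', by
      simp only [map_mul]; rw [div_mul_div_comm]⟩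
  one_mem' := ⟨0, 1, 1, isHomogeneous_one _ _, isHomogeneous_one _ _, one_ne_zero, by simp⟩
  add_mem' := by
    rintro _ _ ⟨n, p, q, hp, hq, hq0, rfl⟩ ⟨n', p', q', hp', hq', hq0', rfl⟩
    have h1 : algebraMap (MvPolynomial (Fin 3) k) (FF k) q ≠ 0 := by simpa using hq0
    have h2 : algebraMap (MvPolynomial (Fin 3) k) (FF k) q' ≠ 0 := by simpa using hq0'
    refine ⟨n + n', p * q' + q * p', q * q', (hp.mul hq').add (hq.mul hp'), hq.mul hq',
      mul_ne_zero hq0 hq0', ?_⟩
    simp only [map_mul, map_add]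
    rw [div_add_div _ _ h1 h2]
  zero_mem' := ⟨0, 0, 1, isHomogeneous_zero _ _ _, isHomogeneous_one _ _, one_ne_zero, by simp⟩
  neg_mem' := by
    rintro _ ⟨n, p, q, hp, hq, hq0, rfl⟩
    exact ⟨n, -p, q, hp.neg, hq, hq0, by simp [neg_div]⟩
  inv_mem' := by
    rintro _ ⟨n, p, q, hp, hq, hq0, rfl⟩
    by_cases h0 : p = 0
    · subst h0
      exact ⟨0, 0, 1, isHomogeneous_zero _ _ _, isHomogeneous_one _ _, one_ne_zero, by simp⟩
    · exact ⟨n, q, p, hq, hp, h0, by rw [inv_div]⟩

theorem cF_mem (a : k) : cF k a ∈ FF0 k :=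
  ⟨0, C a, 1, isHomogeneous_C _ _, isHomogeneous_one _ _, one_ne_zero, by simp [cF]⟩

theorem xF_div_mem (i j : Fin 3) : xF k i / xF k j ∈ FF0 k :=
  ⟨1, X i, X j, isHomogeneous_X _ _, isHomogeneous_X _ _, X_ne_zero _, rfl⟩

variable {σ : k ≃+* k} {z : k}

theorem sg_injective (h3 : ∀ a, σ (σ (σ a)) = a) (hz : σ z = z) (hz0 : z ≠ 0) :
    Function.Injective (sg σ z) := by
  have e : ((sg σ z).comp ((sg σ z).comp (sg σ z))) =
      eval₂Hom (C : k →+* MvPolynomial (Fin 3) k) (fun i => C z⁻¹ * X i) := by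
    apply ringHom_ext
    · intro a
      simp [h3]
    · intro i
      fin_cases i
      · simp
      · simp [hz]
      · simp [hz]
  have e2 : (eval₂Hom (C : k →+* MvPolynomial (Fin 3) k) (fun i => C z * X i)).comp
      ((sg σ z).comp ((sg σ z).comp (sg σ z))) = RingHom.id _ := by
    rw [e]
    apply ringHom_ext
    · intro a
      simp
    · intro i
      have : (C z⁻¹ * (C z * X i) : MvPolynomial (Fin 3) k) = X i := by
        rw [← mul_assoc, ← map_mul, inv_mul_cancel₀ hz0]
        simp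
      simpa using this
  intro a b hab
  have h4 := congrArg (fun g => g a) e2
  have h5 := congrArg (fun g => g b) e2
  simp only [RingHom.comp_apply, RingHom.id_apply] at h4 h5
  rw [← h4, ← h5, hab]

/-- the extension to the fraction field -/
noncomputable def sgF (hj : Function.Injective (sg σ z)) : FF k →+* FF k :=
  IsFractionRing.map hj

variable {hj : Function.Injective (sg σ z)}

theorem sgF_algebraMap (p : MvPolynomial (Fin 3) k) :
    sgF hj (algebraMap _ _ p) = algebraMap _ _ (sg σ z p) := by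
  unfold sgF IsFractionRing.map
  exact IsLocalization.map_eq _ _

theorem sgF_div (p q : MvPolynomial (Fin 3) k) :
    sgF hj (algebraMap _ _ p / algebraMap _ _ q)
      = algebraMap _ _ (sg σ z p) / algebraMap _ _ (sg σ z q) := by
  rw [map_div₀, sgF_algebraMap, sgF_algebraMap]

theorem sgF_cF (a : k) : sgF hj (cF k a) = cF k (σ a) := by
  simp [cF, sgF_algebraMap]

theorem sgF_mem {g : FF k} (hg : g ∈ FF0 k) : sgF hj g ∈ FF0 k := by
  obtain ⟨n, p, q, hp, hq, hq0, rfl⟩ := hg
  exact ⟨n, sg σ z p, sg σ z q, sg_hom hp, sg_hom hq,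
    fun h => hq0 (hj (by rw [h, map_zero])), sgF_div p q⟩

theorem sgF_cube (h3 : ∀ a, σ (σ (σ a)) = a) (hz : σ z = z) (hz0 : z ≠ 0) {g : FF k}
    (hg : g ∈ FF0 k) : sgF hj (sgF hj (sgF hj g)) = g := by
  obtain ⟨n, p, q, hp, hq, hq0, rfl⟩ := hg
  rw [sgF_div, sgF_div, sgF_div, sg_cube h3 hz hp, sg_cube h3 hz hq, map_mul, map_mul]
  have h1 : algebraMap (MvPolynomial (Fin 3) k) (FF k) q ≠ 0 := by simpa using hq0
  have h2 : algebraMap (MvPolynomial (Fin 3) k) (FF k) (C (z⁻¹ ^ n)) ≠ 0 := by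
    rw [Ne, FaithfulSMul.algebraMap_eq_zero_iff]
    intro h
    exact pow_ne_zero n (inv_ne_zero hz0) (C_injective _ _ (h.trans (map_zero C).symm))
  exact mul_div_mul_left _ _ h2

/-- the fixed field -/
noncomputable def Fix (hj : Function.Injective (sg σ z)) : Subfield (FF k) where
  carrier := {g | g ∈ FF0 k ∧ sgF hj g = g}
  mul_mem' := fun h h' => ⟨(FF0 k).mul_mem h.1 h'.1, by rw [map_mul, h.2, h'.2]⟩
  one_mem' := ⟨(FF0 k).one_mem, map_one _⟩
  add_mem' := fun h h' => ⟨(FF0 k).add_mem h.1 h'.1, by rw [map_add, h.2, h'.2]⟩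
  zero_mem' := ⟨(FF0 k).zero_mem, map_zero _⟩
  neg_mem' := fun h => ⟨(FF0 k).neg_mem h.1, by rw [map_neg, h.2]⟩
  inv_mem' := fun g h => ⟨(FF0 k).inv_mem h.1, by rw [map_inv₀, h.2]⟩

/-- norms from the twisted field -/
theorem amitsurF (h3 : ∀ a, σ (σ (σ a)) = a) (hz : σ z = z) (hz0 : z ≠ 0) {g : FF k}
    (hg : g ∈ FF0 k) (hg0 : g ≠ 0) {η : k} (e : g * sgF hj g * sgF hj (sgF hj g) = cF k η) :
    ∃ c : k, c ≠ 0 ∧ ∃ j : ℤ, η = c * σ c * σ (σ c) * z ^ j := by
  obtain ⟨n, p, q, hp, hq, hq0, rfl⟩ := hg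
  have hp0 : p ≠ 0 := by
    rintro rfl
    simp at hg0
  refine amitsur h3 hz hz0 n p q hp hq hp0 hq0 η ?_
  rw [sgF_div, sgF_div] at e
  have inj := IsFractionRing.injective (MvPolynomial (Fin 3) k) (FF k)
  have nz : ∀ f : MvPolynomial (Fin 3) k, f ≠ 0 →
      algebraMap (MvPolynomial (Fin 3) k) (FF k) f ≠ 0 := fun f hf => by simpa using hf
  have hq1 : sg σ z q ≠ 0 := fun h => hq0 (hj (by rw [h, map_zero]))
  have hq2 : sg σ z (sg σ z q) ≠ 0 := fun h => hq1 (hj (by rw [h, map_zero]))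
  have n0 := nz _ hq0
  have n1 := nz _ hq1
  have n2 := nz _ hq2
  apply inj
  have e' : cF k η = algebraMap (MvPolynomial (Fin 3) k) (FF k) (C η) := rfl
  rw [e'] at e
  simp only [map_mul]
  field_simp at e
  rw [e]
  ring

theorem alg_const {g : FF k} (hg : IsAlgebraic k g) : ∃ a, g = cF k a := by
  have key : ∀ f : FF k, IsAlgebraic k f → ∃ p : MvPolynomial (Fin 3) k, algebraMap _ _ p = f := by
    intro f hf
    have h1 : IsIntegral k f := hf.isIntegral
    have h2 : IsIntegral (MvPolynomial (Fin 3) k) f := h1.tower_top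
    exact IsIntegrallyClosed.isIntegral_iff.1 h2
  by_cases h0 : g = 0
  · exact ⟨0, by rw [h0, map_zero]⟩
  · obtain ⟨p, hp⟩ := key g hg
    obtain ⟨q, hq⟩ := key g⁻¹ (IsAlgebraic.inv hg)
    have inj := IsFractionRing.injective (MvPolynomial (Fin 3) k) (FF k)
    have h1 : p * q = 1 := by
      apply inj
      rw [map_mul, hp, hq, mul_inv_cancel₀ h0, map_one]
    have h2 : IsUnit p := IsUnit.of_mul_eq_one _ h1
    obtain ⟨r, hr, e1⟩ := (MvPolynomial.isUnit_iff_eq_C_of_isReduced).1 h2
    exact ⟨r, by rw [← hp, e1]; rfl⟩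

/-- algebraic independence of `X0 / X1`, `X1 / X2` over the constants, polynomial form -/
theorem indep (P : MvPolynomial (Fin 2) k)
    (h : eval₂ (cF k) ![xF k 0 / xF k 1, xF k 1 / xF k 2] P = 0) : P = 0 := by
  let τ : MvPolynomial (Fin 3) k →+* MvPolynomial (Fin 3) k :=
    eval₂Hom C ![X 0 * X 1 * X 2, X 1 * X 2, X 2]
  have inj := IsFractionRing.injective (MvPolynomial (Fin 3) k) (FF k)
  have nx : ∀ i, xF k i ≠ 0 := fun i => by
    have : (X i : MvPolynomial (Fin 3) k) ≠ 0 := X_ne_zero _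
    simpa [xF] using this
  have n0 := nx 0
  have n1 := nx 1
  have n2 := nx 2
  have e1 : (eval₂Hom (cF k) ![xF k 0 / xF k 1, xF k 1 / xF k 2, xF k 2]).comp τ
      = algebraMap (MvPolynomial (Fin 3) k) (FF k) := by
    apply ringHom_ext
    · intro a
      simp [τ, cF]
    · intro i
      fin_cases i
      · simp [τ]
        field_simp
        rfl
      · simp [τ]
        field_simp
        rfl
      · simp [τ]
        rfl
  have hτ : Function.Injective τ := by
    intro a b hab
    apply inj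
    rw [← e1, RingHom.comp_apply, RingHom.comp_apply, hab]
  let T : FF k →+* FF k := IsFractionRing.map hτ
  have hT : ∀ p, T (algebraMap _ _ p) = algebraMap _ _ (τ p) := fun p => by
    simp only [T]
    unfold IsFractionRing.map
    exact IsLocalization.map_eq _ _
  have t0 : T (xF k 0) = xF k 0 * xF k 1 * xF k 2 := by
    simp only [xF, hT, ← map_mul]
    simp [τ]
  have t1 : T (xF k 1) = xF k 1 * xF k 2 := by
    simp only [xF, hT, ← map_mul]
    simp [τ]
  have t2 : T (xF k 2) = xF k 2 := by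
    simp only [xF, hT]
    simp [τ]
  have tc : ∀ a, T (cF k a) = cF k a := fun a => by
    simp only [cF, RingHom.comp_apply, hT]
    simp [τ]
  have h2 := congrArg T h
  rw [map_zero] at h2
  have h3 : T (eval₂ (cF k) ![xF k 0 / xF k 1, xF k 1 / xF k 2] P)
      = eval₂ (cF k) ![xF k 0, xF k 1] P := by
    have : (T.comp (eval₂Hom (cF k) ![xF k 0 / xF k 1, xF k 1 / xF k 2]))
        = eval₂Hom (cF k) ![xF k 0, xF k 1] := by
      apply ringHom_ext
      · intro a
        simp [tc]
      · intro i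
        fin_cases i
        · simp [t0, t1]
          field_simp
        · simp [t1, t2]
          field_simp
    exact congrArg (fun g => g P) this
  rw [h3] at h2
  have h4 : eval₂ (cF k) ![xF k 0, xF k 1] P
      = algebraMap (MvPolynomial (Fin 3) k) (FF k) (rename ![0, 1] P) := by
    have : (eval₂Hom (cF k) ![xF k 0, xF k 1]) = (algebraMap (MvPolynomial (Fin 3) k)
        (FF k)).comp (rename ![0, 1] : MvPolynomial (Fin 2) k →ₐ[k] MvPolynomial (Fin 3) k) := by
      apply ringHom_ext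
      · intro a
        simp [cF]
      · intro i
        fin_cases i
        · simp
          rfl
        · simp
          rfl
    exact congrArg (fun g => g P) this
  rw [h4] at h2
  have h5 : rename ![0, 1] P = (0 : MvPolynomial (Fin 3) k) := by
    apply inj
    rw [h2, map_zero]
  have h6 : Function.Injective (![0, 1] : Fin 2 → Fin 3) := by decide
  exact rename_injective _ h6 (h5.trans (map_zero _).symm)

end frac

end Pool.Agent.Helper16.C18
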