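import Pool.Agent.Helper16.C18.Cyc
import Pool.Agent.Helper16.C18.Frac

/-!
# Amitsur's theorem inside a given field
-/

namespace Pool.Agent.Helper16.C18

open MvPolynomial

/-- scaling of the variables in a homogeneous polynomial -/
theorem eval₂_scale {k B : Type*} [Field k] [CommRing B] (f : k →+* B) (t : B)
    (v : Fin 3 → B) {P : MvPolynomial (Fin 3) k} {n : ℕ} (h : P.IsHomogeneous n) :
    eval₂ f (fun i => t * v i) P = t ^ n * eval₂ f v P := by
  rw [eval₂_eq, eval₂_eq, Finset.mul_sum]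
  refine Finset.sum_congr rfl fun d hd => ?_
  have hn : ∑ i ∈ d.support, d i = n := by
    have : d.degree = n := by
      by_contra hne
      exact (mem_support_iff.mp hd) (h.coeff_eq_zero hne)
    exact this
  simp only [mul_pow, Finset.prod_mul_distrib, Finset.prod_pow_eq_pow_sum]
  rw [hn]
  ring

/-- dehomogenisation is injective on homogeneous polynomials -/
theorem hom_eq_zero {k A : Type*} [Field k] [Field A] (f : k →+* A) {w0 w1 : A}
    (hind : ∀ P : MvPolynomial (Fin 2) k, eval₂ f ![w0, w1] P = 0 → P = 0)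
    {P : MvPolynomial (Fin 3) k} {n : ℕ} (h : P.IsHomogeneous n)
    (e : eval₂ f ![w0 * w1, w1, 1] P = 0) : P = 0 := by
  let P' : MvPolynomial (Fin 2) k := eval₂ C ![X 0 * X 1, X 1, 1] P
  have h1 : eval₂ f ![w0, w1] P' = 0 := by
    rw [← e]
    have : (eval₂Hom f ![w0, w1]).comp (eval₂Hom C ![X 0 * X 1, X 1, 1])
        = eval₂Hom f ![w0 * w1, w1, 1] := by
      apply ringHom_ext
      · intro a
        simp
      · intro i
        fin_cases i <;> simp
    exact congrArg (fun g => g P) this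
  have h2 := hind P' h1
  have n2 : xF k 2 ≠ 0 := by
    have : (X 2 : MvPolynomial (Fin 3) k) ≠ 0 := X_ne_zero _
    simpa [xF] using this
  have n1 : xF k 1 ≠ 0 := by
    have : (X 1 : MvPolynomial (Fin 3) k) ≠ 0 := X_ne_zero _
    simpa [xF] using this
  have h3 : eval₂ (cF k) ![xF k 0 / xF k 1, xF k 1 / xF k 2] P'
      = eval₂ (cF k) (fun i => (xF k 2)⁻¹ * xF k i) P := by
    have : (eval₂Hom (cF k) ![xF k 0 / xF k 1, xF k 1 / xF k 2]).comp
        (eval₂Hom C ![X 0 * X 1, X 1, 1])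
        = eval₂Hom (cF k) (fun i => (xF k 2)⁻¹ * xF k i) := by
      apply ringHom_ext
      · intro a
        simp
      · intro i
        fin_cases i
        · simp
          field_simp
        · simp
          field_simp
        · simp [n2]
    exact congrArg (fun g => g P) this
  rw [h2, eval₂_zero, eval₂_scale _ _ _ h] at h3
  have h4 : eval₂ (cF k) (xF k) P = algebraMap _ _ P := by
    have : eval₂Hom (cF k) (xF k) = algebraMap (MvPolynomial (Fin 3) k) (FF k) := by
      apply ringHom_ext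
      · intro a
        simp [cF]
      · intro i
        simp [xF]
    exact congrArg (fun g => g P) this
  rw [h4] at h3
  rcases mul_eq_zero.1 h3.symm with h5 | h5
  · exact absurd h5 (pow_ne_zero _ (inv_ne_zero n2))
  · simpa using h5

section app

variable {A : Type*} [Field A]

/-- homogeneous fractions of `w0 w1, w1, 1` over a subfield -/
def FS (E : Subfield A) (V : Fin 3 → A) : Subfield A where
  carrier := {g | ∃ (n : ℕ) (p q : MvPolynomial (Fin 3) E), p.IsHomogeneous n ∧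
    q.IsHomogeneous n ∧ eval₂ E.subtype V q ≠ 0 ∧
      g = eval₂ E.subtype V p / eval₂ E.subtype V q}
  mul_mem' := by
    rintro _ _ ⟨n, p, q, hp, hq, hq0, rfl⟩ ⟨n', p', q', hp', hq', hq0', rfl⟩
    exact ⟨n + n', p * p', q * q', hp.mul hp', hq.mul hq', by
      rw [eval₂_mul]; exact mul_ne_zero hq0 hq0', by
      simp only [eval₂_mul]; rw [div_mul_div_comm]⟩
  one_mem' := ⟨0, 1, 1, isHomogeneous_one _ _, isHomogeneous_one _ _, by simp, by simp⟩
  add_mem' := by
    rintro _ _ ⟨n, p, q, hp, hq, hq0, rfl⟩ ⟨n', p', q', hp', hq', hq0', rfl⟩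
    refine ⟨n + n', p * q' + q * p', q * q', (hp.mul hq').add (hq.mul hp'), hq.mul hq',
      by rw [eval₂_mul]; exact mul_ne_zero hq0 hq0', ?_⟩
    simp only [eval₂_mul, eval₂_add]
    rw [div_add_div _ _ hq0 hq0']
  zero_mem' := ⟨0, 0, 1, isHomogeneous_zero _ _ _, isHomogeneous_one _ _, by simp, by simp⟩
  neg_mem' := by
    rintro _ ⟨n, p, q, hp, hq, hq0, rfl⟩
    refine ⟨n, -p, q, hp.neg, hq, hq0, ?_⟩
    rw [← coe_eval₂Hom, map_neg, neg_div]
  inv_mem' := by
    rintro _ ⟨n, p, q, hp, hq, hq0, rfl⟩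
    by_cases h0 : eval₂ E.subtype V p = 0
    · rw [h0]
      exact ⟨0, 0, 1, isHomogeneous_zero _ _ _, isHomogeneous_one _ _, by simp, by simp⟩
    · exact ⟨n, q, p, hq, hp, h0, by rw [inv_div]⟩

theorem FS_const {E : Subfield A} {V : Fin 3 → A} {a : A} (ha : a ∈ E) : a ∈ FS E V :=
  ⟨0, C ⟨a, ha⟩, 1, isHomogeneous_C _ _, isHomogeneous_one _ _, by simp, by simp⟩

theorem FS_div {E : Subfield A} {V : Fin 3 → A} (i j : Fin 3) (h : V j ≠ 0) :
    V i / V j ∈ FS E V :=
  ⟨1, X i, X j, isHomogeneous_X _ _, isHomogeneous_X _ _, by simpa using h, by simp⟩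

variable [CharZero A] {Q Φ : Subfield A} {θ w v : Fin 3 → A} {z η : A}

/-- (AM): norms over a generic splitting field -/
theorem amitsur_app (hQΦ : Q ≤ Φ) (hC : Cub Q θ) (hΦ : ∀ j, θ j ∉ Φ) (hρ : dis θ ∈ Q)
    (hw : Rat Φ θ w) (hz : N w = z) (hzQ : z ∈ Q) (hz0 : z ≠ 0)
    (hind : AlgebraicIndependent (Subfield.closure (Q ∪ {θ 0} : Set A)) ![w 0, w 1])
    (hgen : Φ ≤ Subfield.closure ((Subfield.closure (Q ∪ {θ 0} : Set A) : Set A) ∪ {w 0, w 1}))
    (hv : Rat Φ θ v) (hη : N v = η) (hηQ : η ∈ Q) (hη0 : η ≠ 0) :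
    ∃ e, Rat Q θ e ∧ ∃ j : ℤ, η = N e * z ^ j := by
  have hQ : ∀ j, θ j ∉ Q := fun j hj => hΦ j (hQΦ hj)
  have hCΦ : Cub Φ θ := hC.mono hQΦ
  have hρΦ : dis θ ∈ Φ := hQΦ hρ
  -- the two cyclic extensions
  let E : Subfield A := EE Q θ hC hQ
  let F : Subfield A := EE Φ θ hCΦ hΦ
  have hEF : E ≤ F := by
    rintro _ ⟨x, hx, rfl⟩
    exact ⟨x, hx.mono hQΦ, rfl⟩
  have hcl : Subfield.closure (Q ∪ {θ 0} : Set A) = E := by
    apply le_antisymm
    · rw [Subfield.closure_le]
      rintro a (ha | ha)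
      · exact le_EE hC hQ ha
      · rw [Set.mem_singleton_iff] at ha
        subst ha
        exact ⟨θ, Rat.self, rfl⟩
    · rintro _ ⟨x, ⟨a, ha, b, hb, c, hc, e⟩, rfl⟩
      rw [e]
      have hQc : ∀ a ∈ Q, a ∈ Subfield.closure (Q ∪ {θ 0} : Set A) := fun a ha =>
        Subfield.subset_closure (Or.inl ha)
      have hθc : θ 0 ∈ Subfield.closure (Q ∪ {θ 0} : Set A) :=
        Subfield.subset_closure (Or.inr rfl)
      exact add_mem (add_mem (hQc a ha) (mul_mem (hQc b hb) hθc))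
        (mul_mem (hQc c hc) (pow_mem hθc 2))
  rw [hcl] at hind hgen
  have hw0 : ∀ j, w j ≠ 0 := by
    apply N_ne_zero.1
    rw [hz]
    exact hz0
  let σ : E ≃+* E := sig hC hQ hρ
  let s : F ≃+* F := sig hCΦ hΦ hρΦ
  have h3 : ∀ a, σ (σ (σ a)) = a := sig_cube hC hQ hρ
  let zE : E := ⟨z, le_EE hC hQ hzQ⟩
  let ηE : E := ⟨η, le_EE hC hQ hηQ⟩
  have hzE : σ zE = zE := sig_of_mem hC hQ hρ hzQ
  have hzE0 : zE ≠ 0 := fun h => hz0 (congrArg Subtype.val h)
  let V : Fin 3 → A := ![w 0 * w 1, w 1, 1]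
  -- algebraic independence in polynomial form
  have hind' : ∀ P : MvPolynomial (Fin 2) E, eval₂ E.subtype ![w 0, w 1] P = 0 → P = 0 := by
    intro P hP
    exact (algebraicIndependent_iff.1 hind) P hP
  have hom0 : ∀ {P : MvPolynomial (Fin 3) E} {n : ℕ}, P.IsHomogeneous n →
      eval₂ E.subtype V P = 0 → P = 0 := fun h e => hom_eq_zero E.subtype hind' h e
  -- `v 0` is a homogeneous fraction
  have hV0 : V 0 ≠ 0 := mul_ne_zero (hw0 0) (hw0 1)
  have hV1 : V 1 ≠ 0 := hw0 1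
  have hV2 : V 2 ≠ 0 := one_ne_zero
  have hFS : ∀ x ∈ F, x ∈ FS E V := by
    have h1 : Φ ≤ FS E V := by
      refine hgen.trans ?_
      rw [Subfield.closure_le]
      rintro a (ha | ha | ha)
      · exact FS_const ha
      · have : w 0 = V 0 / V 1 := by simp [V, hw0 1]
        rw [ha, this]
        exact FS_div 0 1 hV1
      · rw [Set.mem_singleton_iff] at ha
        have : w 1 = V 1 / V 2 := by simp [V]
        rw [ha, this]
        exact FS_div 1 2 hV2
    rintro _ ⟨x, ⟨a, ha, b, hb, c, hc, e⟩, rfl⟩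
    rw [e]
    have hθ : θ 0 ∈ FS E V := FS_const ⟨θ, Rat.self, rfl⟩
    exact add_mem (add_mem (h1 ha) (mul_mem (h1 hb) hθ)) (mul_mem (h1 hc) (pow_mem hθ 2))
  -- the evaluation with values in `F`
  let wF : Fin 3 → F := fun j => ⟨w j, mem_EE hCΦ hΦ hρΦ hw j⟩
  let VF : Fin 3 → F := ![wF 0 * wF 1, wF 1, 1]
  let ev : MvPolynomial (Fin 3) E →+* F := eval₂Hom (Subfield.inclusion hEF) VF
  have hev : ∀ P, ((ev P : F) : A) = eval₂ E.subtype V P := by
    intro P
    have : F.subtype.comp ev = eval₂Hom E.subtype V := by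
      apply ringHom_ext
      · intro a
        simp [ev]
        rfl
      · intro i
        fin_cases i <;> simp [ev, VF, V, wF]
    exact congrArg (fun g => g P) this
  have hs : ∀ j, s (wF j) = wF (j + 1) := fun j => sig_apply hCΦ hΦ hρΦ hw j
  have hwF : wF 0 * wF 1 * wF 2 = ⟨z, le_EE hCΦ hΦ (hQΦ hzQ)⟩ := Subtype.ext hz
  have hwF2 : wF 2 ≠ 0 := fun h => hw0 2 (congrArg Subtype.val h)
  have hsσ : ∀ a : E, s (Subfield.inclusion hEF a) = Subfield.inclusion hEF (σ a) := by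
    intro a
    have h1 := XX_rat hC hQ a
    have e1 : a = ⟨XX hC hQ a 0, mem_EE hC hQ hρ h1 0⟩ := Subtype.ext (XX_zero hC hQ a).symm
    have e2 : σ a = ⟨XX hC hQ a 1, mem_EE hC hQ hρ h1 1⟩ := by
      conv_lhs => rw [e1]
      exact sig_apply hC hQ hρ h1 0
    have h2 := h1.mono hQΦ
    have e3 : Subfield.inclusion hEF a = ⟨XX hC hQ a 0, mem_EE hCΦ hΦ hρΦ h2 0⟩ :=
      Subtype.ext (XX_zero hC hQ a).symm
    rw [e2, e3]
    exact sig_apply hCΦ hΦ hρΦ h2 0
  have hsev : ∀ {P : MvPolynomial (Fin 3) E} {n : ℕ}, P.IsHomogeneous n →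
      s (ev P) = wF 2 ^ n * ev (sg σ zE P) := by
    intro P n hP
    have e1 : (s : F →+* F).comp ev = eval₂Hom ((Subfield.inclusion hEF).comp (σ : E →+* E))
        (fun i => wF 2 * (![wF 1, 1, (wF 2)⁻¹] : Fin 3 → F) i) := by
      apply ringHom_ext
      · intro a
        simp [ev, hsσ]
      · intro i
        fin_cases i
        · simp [ev, VF, hs]
          ring
        · simp [ev, VF, hs]
        · simp [ev, VF, hwF2]
    have e2 : ev.comp (sg σ zE) = eval₂Hom ((Subfield.inclusion hEF).comp (σ : E →+* E))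
        (![wF 1, 1, (wF 2)⁻¹] : Fin 3 → F) := by
      apply ringHom_ext
      · intro a
        simp [ev]
      · intro i
        fin_cases i
        · simp [ev, VF]
        · simp [ev, VF]
        · simp [ev, VF]
          have hzz : Subfield.inclusion hEF zE = wF 0 * wF 1 * wF 2 := by
            rw [hwF]
            rfl
          have hzF : Subfield.inclusion hEF zE ≠ 0 := by
            rw [hwF] at hzz
            rw [hzz]
            exact fun h => hz0 (congrArg Subtype.val h)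
          rw [inv_mul_eq_iff_eq_mul₀ hzF, hzz]
          field_simp
    have e3 := congrArg (fun g => g P) e1
    have e4 := congrArg (fun g => g P) e2
    simp only [RingHom.comp_apply] at e3 e4
    change s (ev P) = _ at e3
    rw [e3, e4]
    exact eval₂_scale _ _ _ hP
  -- `v`
  let vF : Fin 3 → F := fun j => ⟨v j, mem_EE hCΦ hΦ hρΦ hv j⟩
  have hvs : ∀ j, s (vF j) = vF (j + 1) := fun j => sig_apply hCΦ hΦ hρΦ hv j
  have hvF : vF 0 * vF 1 * vF 2 = ⟨η, le_EE hCΦ hΦ (hQΦ hηQ)⟩ := Subtype.ext hη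
  have hv0 : ∀ j, v j ≠ 0 := by
    apply N_ne_zero.1
    rw [hη]
    exact hη0
  obtain ⟨n, p, q, hp, hq, hq0, e⟩ := hFS (v 0) (mem_EE hCΦ hΦ hρΦ hv 0)
  have hqe : ev q ≠ 0 := by
    intro h
    apply hq0
    rw [← hev, h]
    rfl
  have e0 : vF 0 * ev q = ev p := by
    apply Subtype.ext
    change v 0 * ((ev q : F) : A) = ((ev p : F) : A)
    rw [hev, hev, e]
    exact div_mul_cancel₀ _ hq0
  have hw2n : wF 2 ^ n ≠ 0 := pow_ne_zero _ hwF2
  have e1 : vF 1 * ev (sg σ zE q) = ev (sg σ zE p) := by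
    have h1 := congrArg s e0
    rw [map_mul, hvs, hsev hq, hsev hp] at h1
    apply mul_left_cancel₀ hw2n
    rw [← h1]
    change _ = vF 1 * _
    ring
  have e2 : vF 2 * ev (sg σ zE (sg σ zE q)) = ev (sg σ zE (sg σ zE p)) := by
    have h1 := congrArg s e1
    rw [map_mul, hvs, hsev (sg_hom hq), hsev (sg_hom hp)] at h1
    apply mul_left_cancel₀ hw2n
    rw [← h1]
    change _ = vF 2 * _
    ring
  have hfin : p * sg σ zE p * sg σ zE (sg σ zE p)
      = C ηE * (q * sg σ zE q * sg σ zE (sg σ zE q)) := by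
    rw [← sub_eq_zero]
    refine hom0 (n := n + n + n) ?_ ?_
    · refine ((hp.mul (sg_hom hp)).mul (sg_hom (sg_hom hp))).sub ?_
      have h2 := (isHomogeneous_C (Fin 3) ηE).mul
        ((hq.mul (sg_hom (z := zE) (σ := σ) hq)).mul
          (sg_hom (z := zE) (σ := σ) (sg_hom (z := zE) (σ := σ) hq)))
      rw [zero_add] at h2
      exact h2
    · rw [← hev]
      have hηF : ev (C ηE) = vF 0 * vF 1 * vF 2 := by
        rw [hvF]
        simp [ev]
        rfl
      have : ev (p * sg σ zE p * sg σ zE (sg σ zE p)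
          - C ηE * (q * sg σ zE q * sg σ zE (sg σ zE q))) = 0 := by
        simp only [map_sub, map_mul, hηF, ← e0, ← e1, ← e2]
        ring
      rw [this]
      rfl
  have hp0 : p ≠ 0 := by
    rintro rfl
    apply hv0 0
    rw [e]
    simp
  have hq0' : q ≠ 0 := by
    rintro rfl
    simp at hq0
  obtain ⟨c, hc, j, hj⟩ := amitsur h3 hzE hzE0 n p q hp hq hp0 hq0' ηE hfin
  have h1 := XX_rat hC hQ c
  refine ⟨XX hC hQ c, h1, j, ?_⟩
  have c0 : c = ⟨XX hC hQ c 0, mem_EE hC hQ hρ h1 0⟩ := Subtype.ext (XX_zero hC hQ c).symm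
  have c1 : σ c = ⟨XX hC hQ c 1, mem_EE hC hQ hρ h1 1⟩ := by
    conv_lhs => rw [c0]
    exact sig_apply hC hQ hρ h1 0
  have c2 : σ (σ c) = ⟨XX hC hQ c 2, mem_EE hC hQ hρ h1 2⟩ := by
    rw [c1]
    exact sig_apply hC hQ hρ h1 1
  have h2 := congrArg Subtype.val hj
  rw [c2, c1] at h2
  change η = (c : A) * XX hC hQ c 1 * XX hC hQ c 2 * ((zE ^ j : E) : A) at h2
  rw [h2, ← XX_zero hC hQ c]
  simp only [N]
  congr 1

end app

end Pool.Agent.Helper16.C18
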