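import Mathlib

/-!
# The kernel of norms: twisted homogeneous polynomials (Amitsur)

`k` a field with an automorphism `σ`, `σ³ = 1`, `σ z = z ≠ 0`.  `sg` is the semilinear graded
endomorphism of `k[X0, X1, X2]` with `X0 ↦ X1 ↦ X2 ↦ z⁻¹ X0`.  If
`p * sg p * sg² p = η * (q * sg q * sg² q)` with `p, q` homogeneous of the same degree, then
`η = c σ(c) σ²(c) z ^ j`.
-/

namespace Pool.Agent.Helper16.C18

open MvPolynomial

section hom

variable {k : Type*} [Field k]

/-- scaling of the variables -/
noncomputable def scl : MvPolynomial (Fin 3) k →ₐ[k] Polynomial (MvPolynomial (Fin 3) k) :=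
  aeval fun i => Polynomial.C (X i) * Polynomial.X

theorem scl_monomial (d : Fin 3 →₀ ℕ) (c : k) :
    scl (monomial d c) = Polynomial.C (monomial d c) * Polynomial.X ^ d.degree := by
  have h1 : scl (monomial d c) = algebraMap k (Polynomial (MvPolynomial (Fin 3) k)) c *
      d.prod fun i n => (Polynomial.C (X i : MvPolynomial (Fin 3) k) * Polynomial.X) ^ n := by
    unfold scl
    exact aeval_monomial _ _ _
  have h2 : (d.prod fun i n => (Polynomial.C (X i : MvPolynomial (Fin 3) k) *
      Polynomial.X) ^ n) =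
      Polynomial.C (d.prod fun i n => (X i : MvPolynomial (Fin 3) k) ^ n) *
        Polynomial.X ^ d.degree := by
    simp only [Finsupp.prod, mul_pow, Finset.prod_mul_distrib, Finset.prod_pow_eq_pow_sum,
      map_prod, map_pow]
    rfl
  have h3 : algebraMap k (Polynomial (MvPolynomial (Fin 3) k)) c = Polynomial.C (C c) := rfl
  rw [h1, h2, h3, monomial_eq, map_mul, mul_assoc]

theorem scl_hom {f : MvPolynomial (Fin 3) k} {n : ℕ} (h : f.IsHomogeneous n) :
    scl f = Polynomial.C f * Polynomial.X ^ n := by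
  have h1 : scl f = ∑ d ∈ f.support, scl (monomial d (coeff d f)) := by
    rw [← map_sum, ← f.as_sum]
  have h2 : Polynomial.C f * Polynomial.X ^ n =
      ∑ d ∈ f.support, Polynomial.C (monomial d (coeff d f)) * Polynomial.X ^ n := by
    rw [← Finset.sum_mul, ← map_sum, ← f.as_sum]
  rw [h1, h2]
  refine Finset.sum_congr rfl fun d hd => ?_
  rw [scl_monomial]
  have hn : d.degree = n := by
    by_contra hne
    exact (mem_support_iff.mp hd) (h.coeff_eq_zero hne)
  rw [hn]

theorem scl_coeff (f : MvPolynomial (Fin 3) k) (m : ℕ) :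
    (scl f).coeff m = homogeneousComponent m f := by
  have h1 : scl f = ∑ i ∈ Finset.range (f.totalDegree + 1),
      Polynomial.C (homogeneousComponent i f) * Polynomial.X ^ i := by
    conv_lhs => rw [← sum_homogeneousComponent f]
    rw [map_sum]
    exact Finset.sum_congr rfl fun i _ => scl_hom (homogeneousComponent_isHomogeneous i f)
  rw [h1, Polynomial.finsetSum_coeff]
  simp only [Polynomial.coeff_C_mul, Polynomial.coeff_X_pow]
  by_cases hk : m ∈ Finset.range (f.totalDegree + 1)
  · rw [Finset.sum_eq_single_of_mem m hk]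
    · simp
    · intro b _ hb
      simp [Ne.symm hb]
  · rw [Finset.sum_eq_zero]
    · symm
      apply homogeneousComponent_eq_zero
      simp only [Finset.mem_range, not_lt] at hk; omega
    · intro i hi
      have : m ≠ i := by rintro rfl; exact hk hi
      simp [this]

theorem scl_ne_zero {f : MvPolynomial (Fin 3) k} (hf : f ≠ 0) : scl f ≠ 0 := by
  intro h
  apply hf
  rw [← sum_homogeneousComponent f]
  apply Finset.sum_eq_zero
  intro i _
  rw [← scl_coeff, h, Polynomial.coeff_zero]

/-- a factor of a homogeneous polynomial is homogeneous -/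
theorem hom_of_mul {f g : MvPolynomial (Fin 3) k} {n : ℕ} (h : (f * g).IsHomogeneous n)
    (h0 : f * g ≠ 0) : ∃ a b, f.IsHomogeneous a ∧ g.IsHomogeneous b ∧ a + b = n := by
  have hf : f ≠ 0 := left_ne_zero_of_mul h0
  have hg : g ≠ 0 := right_ne_zero_of_mul h0
  have h1 : scl f * scl g = Polynomial.C (f * g) * Polynomial.X ^ n := by
    rw [← map_mul, scl_hom h]
  have h2 := Polynomial.natDegree_mul (scl_ne_zero hf) (scl_ne_zero hg)
  have h3 := Polynomial.natTrailingDegree_mul (scl_ne_zero hf) (scl_ne_zero hg)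
  have h4 : (Polynomial.C (f * g) * Polynomial.X ^ n :
      Polynomial (MvPolynomial (Fin 3) k)).natDegree = n :=
    Polynomial.natDegree_C_mul_X_pow n _ h0
  have h5 : (Polynomial.C (f * g) * Polynomial.X ^ n :
      Polynomial (MvPolynomial (Fin 3) k)).natTrailingDegree = n := by
    rw [Polynomial.C_mul_X_pow_eq_monomial, Polynomial.natTrailingDegree_monomial h0]
  rw [h1, h4] at h2
  rw [h1, h5] at h3
  have key : ∀ r : MvPolynomial (Fin 3) k, (scl r).natDegree = (scl r).natTrailingDegree →
      r.IsHomogeneous (scl r).natDegree := by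
    intro r h8
    have h9 : r = homogeneousComponent (scl r).natDegree r := by
      conv_lhs => rw [← sum_homogeneousComponent r]
      apply Finset.sum_eq_single
      · intro i _ hk
        rw [← scl_coeff]
        rcases lt_or_gt_of_ne hk with hlt | hgt
        · apply Polynomial.coeff_eq_zero_of_lt_natTrailingDegree
          omega
        · exact Polynomial.coeff_eq_zero_of_natDegree_lt hgt
      · intro hk
        apply homogeneousComponent_eq_zero
        simp only [Finset.mem_range, not_lt] at hk; omega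
    have h10 := homogeneousComponent_isHomogeneous (scl r).natDegree r
    rwa [← h9] at h10
  have h6 := Polynomial.natTrailingDegree_le_natDegree (scl f)
  have h7 := Polynomial.natTrailingDegree_le_natDegree (scl g)
  exact ⟨_, _, key f (by omega), key g (by omega), h2.symm⟩

theorem hom_zero {f : MvPolynomial (Fin 3) k} (h : f.IsHomogeneous 0) : ∃ c, f = C c := by
  by_cases h0 : f = 0
  · exact ⟨0, by simp [h0]⟩
  · have h1 : f.totalDegree = 0 := h.totalDegree h0
    rw [MvPolynomial.totalDegree_eq_zero_iff_eq_C] at h1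
    exact ⟨_, h1⟩

end hom

section ami

variable {k : Type*} [Field k]

/-- the semilinear graded endomorphism -/
noncomputable def sg (σ : k ≃+* k) (z : k) :
    MvPolynomial (Fin 3) k →+* MvPolynomial (Fin 3) k :=
  eval₂Hom ((C : k →+* MvPolynomial (Fin 3) k).comp (σ : k →+* k)) ![X 1, X 2, C z⁻¹ * X 0]

variable {σ : k ≃+* k} {z : k}

@[simp] theorem sg_C (a : k) : sg σ z (C a) = C (σ a) := by simp [sg]
@[simp] theorem sg_X0 : sg σ z (X 0) = X 1 := by simp [sg]
@[simp] theorem sg_X1 : sg σ z (X 1) = X 2 := by simp [sg]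
@[simp] theorem sg_X2 : sg σ z (X 2) = C z⁻¹ * X 0 := by simp [sg]

theorem sg_hom {f : MvPolynomial (Fin 3) k} {n : ℕ} (h : f.IsHomogeneous n) :
    (sg σ z f).IsHomogeneous n := by
  have := h.eval₂ ((C : k →+* MvPolynomial (Fin 3) k).comp (σ : k →+* k))
    (![X 1, X 2, C z⁻¹ * X 0] : Fin 3 → MvPolynomial (Fin 3) k) (n := 1)
    (fun r => isHomogeneous_C _ _) (by
      intro i
      fin_cases i
      · exact isHomogeneous_X k 1
      · exact isHomogeneous_X k 2
      · simpa using (isHomogeneous_X k (0 : Fin 3)).C_mul z⁻¹)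
  rw [one_mul] at this
  exact this

/-- `sg³` is the scaling by `z⁻¹` -/
theorem sg_cube (h3 : ∀ a, σ (σ (σ a)) = a) (hz : σ z = z) {f : MvPolynomial (Fin 3) k} {n : ℕ}
    (h : f.IsHomogeneous n) : sg σ z (sg σ z (sg σ z f)) = C (z⁻¹ ^ n) * f := by
  have e : ((sg σ z).comp ((sg σ z).comp (sg σ z))) =
      eval₂Hom (C : k →+* MvPolynomial (Fin 3) k) (fun i => C z⁻¹ * X i) := by
    apply ringHom_ext
    · intro a
      simp [h3]
    · intro i
      fin_cases i
      · simp
      · simp [hz]
      · simp [hz]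
  have e2 := congrArg (fun g => g f) e
  simp only [RingHom.comp_apply] at e2
  rw [e2]
  change eval₂ _ _ f = _
  rw [eval₂_eq]
  conv_rhs => rw [f.as_sum]
  rw [Finset.mul_sum]
  refine Finset.sum_congr rfl fun d hd => ?_
  have hn : d.degree = n := by
    by_contra hne
    exact (mem_support_iff.mp hd) (h.coeff_eq_zero hne)
  rw [monomial_eq]
  simp only [mul_pow, Finset.prod_mul_distrib, Finset.prod_pow_eq_pow_sum, Finsupp.prod]
  have hn' : ∑ i ∈ d.support, d i = n := hn
  rw [hn']
  simp only [map_pow]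
  ring

/-- **Amitsur's theorem** for a cyclic cubic extension, in polynomial form. -/
theorem amitsur (h3 : ∀ a, σ (σ (σ a)) = a) (hz : σ z = z) (hz0 : z ≠ 0) (n : ℕ) :
    ∀ (p q : MvPolynomial (Fin 3) k), p.IsHomogeneous n → q.IsHomogeneous n → p ≠ 0 → q ≠ 0 →
      ∀ η : k, p * sg σ z p * sg σ z (sg σ z p) = C η * (q * sg σ z q * sg σ z (sg σ z q)) →
      ∃ c : k, c ≠ 0 ∧ ∃ j : ℤ, η = c * σ c * σ (σ c) * z ^ j := by
  induction n using Nat.strong_induction_on with
  | _ n ih =>
    intro p q hp hq hp0 hq0 η e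
    have sg0 : ∀ {f : MvPolynomial (Fin 3) k} {m : ℕ}, f.IsHomogeneous m → f ≠ 0 →
        sg σ z f ≠ 0 := by
      intro f m hf hf0 h0
      have := sg_cube h3 hz hf
      rw [h0, map_zero, map_zero] at this
      rcases mul_eq_zero.1 this.symm with h1 | h1
      · rw [← map_zero (C : k →+* MvPolynomial (Fin 3) k)] at h1
        exact pow_ne_zero _ (inv_ne_zero hz0) (C_injective _ _ h1)
      · exact hf0 h1
    have nz : ∀ {f : MvPolynomial (Fin 3) k} {m : ℕ}, f.IsHomogeneous m → f ≠ 0 →
        f * sg σ z f * sg σ z (sg σ z f) ≠ 0 := fun {f m} hf hf0 =>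
      mul_ne_zero (mul_ne_zero hf0 (sg0 hf hf0)) (sg0 (sg_hom hf) (sg0 hf hf0))
    have hη : η ≠ 0 := by
      rintro rfl
      exact nz hp hp0 (by rw [e]; simp)
    rcases Nat.eq_zero_or_pos n with rfl | hn
    · obtain ⟨a, rfl⟩ := hom_zero hp
      obtain ⟨b, rfl⟩ := hom_zero hq
      have ha : a ≠ 0 := fun h => hp0 (by simp [h])
      have hb : b ≠ 0 := fun h => hq0 (by simp [h])
      refine ⟨a / b, div_ne_zero ha hb, 0, ?_⟩
      simp only [sg_C, ← map_mul] at e
      have e' := C_injective _ _ e
      have hb1 : σ b ≠ 0 := by simpa using hb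
      have hb2 : σ (σ b) ≠ 0 := by simpa using hb
      simp only [map_div₀, zpow_zero, mul_one]
      field_simp
      linear_combination -e'
    · -- an irreducible factor of `p`
      have hpu : ¬ IsUnit p := by
        intro hu
        have h1 := (MvPolynomial.isUnit_iff_eq_C_of_isReduced).1 hu
        obtain ⟨r, hr, e1⟩ := h1
        have h2 : p.IsHomogeneous 0 := e1 ▸ isHomogeneous_C _ _
        exact absurd (hp.inj_right h2 hp0) (by omega)
      obtain ⟨π, hπ, p', rfl⟩ := WfDvdMonoid.exists_irreducible_factor hpu hp0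
      obtain ⟨m, l, hm, hl, hml⟩ := hom_of_mul hp hp0
      have hπ0 : π ≠ 0 := hπ.ne_zero
      have hp'0 : p' ≠ 0 := right_ne_zero_of_mul hp0
      have hm1 : 0 < m := by
        rcases Nat.eq_zero_or_pos m with rfl | h
        · obtain ⟨c, rfl⟩ := hom_zero hm
          exfalso
          apply hπ.not_isUnit
          apply IsUnit.map
          rw [isUnit_iff_ne_zero]
          rintro rfl
          exact hπ0 (by simp)
        · exact h
      have Nπ := nz hm hπ0
      have hpr : Prime π := hπ.prime
      have hdvd : π ∣ C η * (q * sg σ z q * sg σ z (sg σ z q)) := by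
        rw [← e]
        exact Dvd.intro (p' * sg σ z (π * p') * sg σ z (sg σ z (π * p'))) (by ring)
      -- the reduction step
      have step : ∀ (w : k) (j0 : ℤ), w = z ^ j0 → ∀ τ : MvPolynomial (Fin 3) k,
          τ.IsHomogeneous m → τ ≠ 0 →
          τ * sg σ z τ * sg σ z (sg σ z τ) = C w * (π * sg σ z π * sg σ z (sg σ z π)) →
          τ ∣ q → ∃ c : k, c ≠ 0 ∧ ∃ j : ℤ, η = c * σ c * σ (σ c) * z ^ j := by
        rintro w j0 hw τ hτ hτ0 eτ ⟨q', rfl⟩
        obtain ⟨m', l', hm', hl', hml'⟩ := hom_of_mul hq hq0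
        have : m' = m := hm'.inj_right hτ hτ0
        subst this
        have hl2 : l' = l := by omega
        subst hl2
        have hw0 : w ≠ 0 := by rw [hw]; exact zpow_ne_zero _ hz0
        have e2 : p' * sg σ z p' * sg σ z (sg σ z p')
            = C (η * w) * (q' * sg σ z q' * sg σ z (sg σ z q')) := by
          apply mul_left_cancel₀ Nπ
          simp only [map_mul] at e ⊢
          linear_combination e + C η * (q' * sg σ z q' * sg σ z (sg σ z q')) * eτ
        obtain ⟨c, hc, j, hj⟩ := ih l' (by omega) p' q' hl hl' hp'0 (right_ne_zero_of_mul hq0)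
          (η * w) e2
        refine ⟨c, hc, j - j0, ?_⟩
        rw [zpow_sub₀ hz0, ← hw, ← mul_div_assoc, ← hj]
        field_simp
      have uC : ∀ j : ℕ, IsUnit (C (z⁻¹ ^ j) : MvPolynomial (Fin 3) k) := fun j =>
        (IsUnit.mk0 _ (pow_ne_zero _ (inv_ne_zero hz0))).map C
      rcases hpr.dvd_or_dvd hdvd with h1 | h1
      · exfalso
        exact hπ.not_isUnit (isUnit_of_dvd_unit h1 ((IsUnit.mk0 _ hη).map C))
      rcases hpr.dvd_or_dvd h1 with h2 | h2
      · rcases hpr.dvd_or_dvd h2 with h4 | h4
        · exact step 1 0 (by simp) π hm hπ0 (by simp) h4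
        · -- `π ∣ sg q`, so `sg² π ∣ q`
          refine step (z⁻¹ ^ (2 * m)) (-((2 * m : ℕ) : ℤ)) (by rw [zpow_neg, zpow_natCast, inv_pow])
            (sg σ z (sg σ z π))
            (sg_hom (sg_hom hm)) (sg0 (sg_hom hm) (sg0 hm hπ0)) ?_ ?_
          · have c1 := sg_cube h3 hz hm
            rw [c1, map_mul, sg_C]
            simp only [map_pow, map_inv₀, hz, pow_mul]
            ring
          · obtain ⟨r, hr⟩ := h4
            have c1 := sg_cube h3 hz hq
            rw [hr, map_mul, map_mul] at c1
            rw [← (uC n).dvd_mul_left, ← c1]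
            exact Dvd.intro _ rfl
      · refine step (z⁻¹ ^ m) (-((m : ℕ) : ℤ)) (by rw [zpow_neg, zpow_natCast, inv_pow]) (sg σ z π)
          (sg_hom hm) (sg0 hm hπ0) ?_ ?_
        · have c1 := sg_cube h3 hz hm
          rw [c1]
          ring
        · obtain ⟨r, hr⟩ := h2
          have c1 := sg_cube h3 hz hq
          rw [hr, map_mul] at c1
          rw [← (uC n).dvd_mul_left, ← c1]
          exact Dvd.intro _ rfl

end ami

end Pool.Agent.Helper16.C18
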