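import Mathlib

/-!
# Base library: triples as elements of a cubic algebra inside one field

`A` is a field, `K`, `L` subfields, `θ : Fin 3 → A` three distinct elements whose
elementary symmetric functions lie in `K`.  `Rat L θ x` says that the triple `x` has the form
`x j = a + b θ j + c θ j ^ 2` with `a, b, c` in `L`.  These triples form a subring of `Fin 3 → A`
(the cubic algebra `L[T] / (T - θ 0)(T - θ 1)(T - θ 2)`).
-/

namespace Pool.Agent.Helper16.C18

variable {A : Type*} [Field A]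

/-- trace of a triple -/
def T (x : Fin 3 → A) : A := x 0 + x 1 + x 2

/-- norm of a triple -/
def N (x : Fin 3 → A) : A := x 0 * x 1 * x 2

/-- adjoint of a triple: product of the two other entries -/
def sh (x : Fin 3 → A) : Fin 3 → A := ![x 1 * x 2, x 2 * x 0, x 0 * x 1]

/-- derivative of the minimal polynomial: product of the two differences -/
def Dt (θ : Fin 3 → A) : Fin 3 → A :=
  ![(θ 0 - θ 1) * (θ 0 - θ 2), (θ 1 - θ 2) * (θ 1 - θ 0), (θ 2 - θ 0) * (θ 2 - θ 1)]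

/-- three distinct elements, symmetric functions in `K` -/
structure Cub (K : Subfield A) (θ : Fin 3 → A) : Prop where
  inj : Function.Injective θ
  e1 : T θ ∈ K
  e2 : T (sh θ) ∈ K
  e3 : N θ ∈ K

/-- `x` is rational over `L` with respect to `θ` -/
def Rat (L : Subfield A) (θ x : Fin 3 → A) : Prop :=
  ∃ a ∈ L, ∃ b ∈ L, ∃ c ∈ L, ∀ j, x j = a + b * θ j + c * θ j ^ 2

variable {K L : Subfield A} {θ x y : Fin 3 → A}

theorem Cub.mono (h : Cub K θ) (hKL : K ≤ L) : Cub L θ :=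
  ⟨h.inj, hKL h.e1, hKL h.e2, hKL h.e3⟩

theorem Cub.ne (h : Cub K θ) : θ 0 ≠ θ 1 ∧ θ 1 ≠ θ 2 ∧ θ 2 ≠ θ 0 :=
  ⟨fun e => by simpa using h.inj e, fun e => by simpa using h.inj e,
    fun e => by simpa using h.inj e⟩

theorem Cub.root (j : Fin 3) : θ j ^ 3 - T θ * θ j ^ 2 + T (sh θ) * θ j - N θ = 0 := by
  fin_cases j <;> simp [T, N, sh] <;> ring

theorem Cub.cube (θ : Fin 3 → A) (j : Fin 3) :
    θ j ^ 3 = T θ * θ j ^ 2 - T (sh θ) * θ j + N θ := by
  fin_cases j <;> simp [T, N, sh] <;> ring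

theorem Dt_ne (h : Function.Injective θ) (j : Fin 3) : Dt θ j ≠ 0 := by
  have h01 : θ 0 ≠ θ 1 := fun e => by simpa using h e
  have h12 : θ 1 ≠ θ 2 := fun e => by simpa using h e
  have h20 : θ 2 ≠ θ 0 := fun e => by simpa using h e
  fin_cases j <;> simp [Dt, sub_eq_zero, h01, h12, h20, h01.symm, h12.symm, h20.symm]

theorem Dt_eq (θ : Fin 3 → A) (j : Fin 3) :
    Dt θ j = 3 * θ j ^ 2 - 2 * T θ * θ j + T (sh θ) := by
  fin_cases j <;> simp [T, sh, Dt] <;> ring

theorem sh_eq (x : Fin 3 → A) (j : Fin 3) :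
    sh x j = T (sh x) - x j * (T x - x j) := by
  fin_cases j <;> simp [T, sh] <;> ring

theorem mul_sh (x : Fin 3 → A) (j : Fin 3) : x j * sh x j = N x := by
  fin_cases j <;> simp [N, sh] <;> ring

/-- Lagrange interpolation -/
theorem lagrange (h : Function.Injective θ) (x : Fin 3 → A) (j : Fin 3) :
    x j = T (fun i => x i * sh θ i / Dt θ i) + T (fun i => x i * (θ i - T θ) / Dt θ i) * θ j
      + T (fun i => x i / Dt θ i) * θ j ^ 2 := by
  have h01 : θ 0 - θ 1 ≠ 0 := sub_ne_zero.2 fun e => by simpa using h e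
  have h12 : θ 1 - θ 2 ≠ 0 := sub_ne_zero.2 fun e => by simpa using h e
  have h20 : θ 2 - θ 0 ≠ 0 := sub_ne_zero.2 fun e => by simpa using h e
  have h10 : θ 1 - θ 0 ≠ 0 := sub_ne_zero.2 fun e => by simpa using h e
  have h21 : θ 2 - θ 1 ≠ 0 := sub_ne_zero.2 fun e => by simpa using h e
  have h02 : θ 0 - θ 2 ≠ 0 := sub_ne_zero.2 fun e => by simpa using h e
  have e0 : Dt θ 0 = (θ 0 - θ 1) * (θ 0 - θ 2) := rfl
  have e1 : Dt θ 1 = (θ 1 - θ 2) * (θ 1 - θ 0) := rfl
  have e2 : Dt θ 2 = (θ 2 - θ 0) * (θ 2 - θ 1) := rfl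
  have s0 : sh θ 0 = θ 1 * θ 2 := rfl
  have s1 : sh θ 1 = θ 2 * θ 0 := rfl
  have s2 : sh θ 2 = θ 0 * θ 1 := rfl
  fin_cases j
  · simp only [T, e0, e1, e2, s0, s1, s2, Fin.zero_eta]
    field_simp
    ring
  · simp only [T, e0, e1, e2, s0, s1, s2, Fin.mk_one]
    field_simp
    ring
  · simp only [T, e0, e1, e2, s0, s1, s2, Fin.reduceFinMk]
    field_simp
    ring

theorem Rat.mono (h : Rat K θ x) (hKL : K ≤ L) : Rat L θ x := by
  obtain ⟨a, ha, b, hb, c, hc, e⟩ := h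
  exact ⟨a, hKL ha, b, hKL hb, c, hKL hc, e⟩

theorem Rat.const {c : A} (hc : c ∈ L) : Rat L θ (fun _ => c) :=
  ⟨c, hc, 0, L.zero_mem, 0, L.zero_mem, fun j => by ring⟩

theorem Rat.self : Rat L θ θ :=
  ⟨0, L.zero_mem, 1, L.one_mem, 0, L.zero_mem, fun j => by ring⟩

theorem Rat.add (hx : Rat L θ x) (hy : Rat L θ y) : Rat L θ (fun j => x j + y j) := by
  obtain ⟨a, ha, b, hb, c, hc, e⟩ := hx
  obtain ⟨a', ha', b', hb', c', hc', e'⟩ := hy
  exact ⟨a + a', L.add_mem ha ha', b + b', L.add_mem hb hb', c + c', L.add_mem hc hc',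
    fun j => by simp only [e, e']; ring⟩

theorem Rat.neg (hx : Rat L θ x) : Rat L θ (fun j => - x j) := by
  obtain ⟨a, ha, b, hb, c, hc, e⟩ := hx
  exact ⟨-a, L.neg_mem ha, -b, L.neg_mem hb, -c, L.neg_mem hc, fun j => by simp only [e]; ring⟩

theorem Rat.sub (hx : Rat L θ x) (hy : Rat L θ y) : Rat L θ (fun j => x j - y j) := by
  simpa [sub_eq_add_neg] using hx.add hy.neg

theorem Rat.smul {c : A} (hc : c ∈ L) (hx : Rat L θ x) : Rat L θ (fun j => c * x j) := by
  obtain ⟨a, ha, b, hb, c', hc', e⟩ := hx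
  exact ⟨c * a, L.mul_mem hc ha, c * b, L.mul_mem hc hb, c * c', L.mul_mem hc hc',
    fun j => by simp only [e]; ring⟩

theorem Rat.mul (h : Cub L θ) (hx : Rat L θ x) (hy : Rat L θ y) :
    Rat L θ (fun j => x j * y j) := by
  obtain ⟨a, ha, b, hb, c, hc, e⟩ := hx
  obtain ⟨a', ha', b', hb', c', hc', e'⟩ := hy
  have h1 := h.e1
  have h2 := h.e2
  have h3 := h.e3
  -- θ^3 = e1 θ^2 - e2 θ + e3, θ^4 = (e1^2 - e2) θ^2 + (e3 - e1 e2) θ + e1 e3
  refine ⟨a * a' + (b * c' + c * b') * N θ + c * c' * (T θ * N θ), ?_,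
    a * b' + b * a' - (b * c' + c * b') * T (sh θ) + c * c' * (N θ - T θ * T (sh θ)), ?_,
    a * c' + b * b' + c * a' + (b * c' + c * b') * T θ + c * c' * (T θ ^ 2 - T (sh θ)), ?_, ?_⟩
  · exact L.add_mem (L.add_mem (L.mul_mem ha ha') (L.mul_mem (L.add_mem (L.mul_mem hb hc')
      (L.mul_mem hc hb')) h3)) (L.mul_mem (L.mul_mem hc hc') (L.mul_mem h1 h3))
  · exact L.add_mem (L.sub_mem (L.add_mem (L.mul_mem ha hb') (L.mul_mem hb ha'))
      (L.mul_mem (L.add_mem (L.mul_mem hb hc') (L.mul_mem hc hb')) h2))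
      (L.mul_mem (L.mul_mem hc hc') (L.sub_mem h3 (L.mul_mem h1 h2)))
  · exact L.add_mem (L.add_mem (L.add_mem (L.add_mem (L.mul_mem ha hc') (L.mul_mem hb hb'))
      (L.mul_mem hc ha')) (L.mul_mem (L.add_mem (L.mul_mem hb hc') (L.mul_mem hc hb')) h1))
      (L.mul_mem (L.mul_mem hc hc') (L.sub_mem (L.pow_mem h1 2) h2))
  · intro j
    simp only [e, e']
    have e3 := Cub.cube θ j
    have e4 : θ j ^ 4 = (T θ ^ 2 - T (sh θ)) * θ j ^ 2 + (N θ - T θ * T (sh θ)) * θ j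
        + T θ * N θ := by
      linear_combination (θ j + T θ) * e3
    linear_combination (b * c' + c * b') * e3 + c * c' * e4

theorem Rat.T_mem (h : Cub L θ) (hx : Rat L θ x) : T x ∈ L := by
  obtain ⟨a, ha, b, hb, c, hc, e⟩ := hx
  have : T x = 3 * a + b * T θ + c * (T θ ^ 2 - 2 * T (sh θ)) := by
    simp only [T, e, C18.sh, Matrix.cons_val_zero, Matrix.cons_val_one, Matrix.cons_val]
    ring
  rw [this]
  have h3 : (3 : A) ∈ L := ofNat_mem L 3
  have h2 : (2 : A) ∈ L := ofNat_mem L 2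
  exact L.add_mem (L.add_mem (L.mul_mem h3 ha) (L.mul_mem hb h.e1)) (L.mul_mem hc
    (L.sub_mem (L.pow_mem h.e1 2) (L.mul_mem h2 h.e2)))

/-- the sum of the pairwise products lies in `L` -/
theorem Rat.Tsh_mem (h : Cub L θ) (hx : Rat L θ x) : T (sh x) ∈ L := by
  obtain ⟨a, ha, b, hb, c, hc, e⟩ := hx
  have e1 := h.e1
  have e2 := h.e2
  have e3 := h.e3
  have : T (sh x) = 3 * a ^ 2 + 2 * a * b * T θ + 2 * a * c * (T θ ^ 2 - 2 * T (sh θ))
      + b ^ 2 * T (sh θ) + b * c * (T θ * T (sh θ) - 3 * N θ)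
      + c ^ 2 * (T (sh θ) ^ 2 - 2 * T θ * N θ) := by
    simp only [T, e, C18.sh, N, Matrix.cons_val_zero, Matrix.cons_val_one, Matrix.cons_val]
    ring
  rw [this]
  have h3 : (3 : A) ∈ L := ofNat_mem L 3
  have h2 : (2 : A) ∈ L := ofNat_mem L 2
  refine L.add_mem (L.add_mem (L.add_mem (L.add_mem (L.add_mem ?_ ?_) ?_) ?_) ?_) ?_
  · exact L.mul_mem h3 (L.pow_mem ha 2)
  · exact L.mul_mem (L.mul_mem (L.mul_mem h2 ha) hb) e1
  · exact L.mul_mem (L.mul_mem (L.mul_mem h2 ha) hc) (L.sub_mem (L.pow_mem e1 2)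
      (L.mul_mem h2 e2))
  · exact L.mul_mem (L.pow_mem hb 2) e2
  · exact L.mul_mem (L.mul_mem hb hc) (L.sub_mem (L.mul_mem e1 e2) (L.mul_mem h3 e3))
  · exact L.mul_mem (L.pow_mem hc 2) (L.sub_mem (L.pow_mem e2 2)
      (L.mul_mem (L.mul_mem h2 e1) e3))

theorem Rat.sh (h : Cub L θ) (hx : Rat L θ x) : Rat L θ (sh x) := by
  have : C18.sh x = fun j => T (C18.sh x) - x j * (T x - x j) := funext fun j => sh_eq x j
  rw [this]
  exact (Rat.const (hx.Tsh_mem h)).sub (Rat.mul h hx ((Rat.const (hx.T_mem h)).sub hx))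

/-- a rational constant triple is a constant of `L` -/
theorem Rat.const_mem (h : Function.Injective θ) {c : A} (hx : Rat L θ (fun _ => c)) : c ∈ L := by
  obtain ⟨a, ha, b, hb, c', hc', e⟩ := hx
  have h01 : θ 0 - θ 1 ≠ 0 := sub_ne_zero.2 fun e => by simpa using h e
  have h12 : θ 1 - θ 2 ≠ 0 := sub_ne_zero.2 fun e => by simpa using h e
  have h20 : θ 2 - θ 0 ≠ 0 := sub_ne_zero.2 fun e => by simpa using h e
  have e0 : c = a + b * θ 0 + c' * θ 0 ^ 2 := e 0
  have e1 : c = a + b * θ 1 + c' * θ 1 ^ 2 := e 1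
  have e2 : c = a + b * θ 2 + c' * θ 2 ^ 2 := e 2
  have f1 : b + c' * (θ 0 + θ 1) = 0 := by
    have : (θ 0 - θ 1) * (b + c' * (θ 0 + θ 1)) = 0 := by linear_combination e1 - e0
    exact (mul_eq_zero.1 this).resolve_left h01
  have f2 : b + c' * (θ 1 + θ 2) = 0 := by
    have : (θ 1 - θ 2) * (b + c' * (θ 1 + θ 2)) = 0 := by linear_combination e2 - e1
    exact (mul_eq_zero.1 this).resolve_left h12
  have f3 : c' = 0 := by
    have : (θ 2 - θ 0) * c' = 0 := by linear_combination f2 - f1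
    exact (mul_eq_zero.1 this).resolve_left h20
  have f4 : b = 0 := by simpa [f3] using f1
  have : c = a := by
    have := e0
    simp only [f3, f4] at this
    simpa using this
  rw [this]
  exact ha

theorem Rat.N_mem (h : Cub L θ) (hx : Rat L θ x) : N x ∈ L := by
  have h1 : Rat L θ (fun _ => N x) := by
    have : (fun _ : Fin 3 => N x) = fun j => x j * C18.sh x j := funext fun j => (mul_sh x j).symm
    rw [this]
    exact Rat.mul h hx (hx.sh h)
  exact h1.const_mem h.inj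

theorem N_ne_zero : N x ≠ 0 ↔ ∀ j, x j ≠ 0 := by
  simp [N, Fin.forall_fin_succ, and_assoc]

theorem Rat.inv (h : Cub L θ) (hx : Rat L θ x) (h0 : ∀ j, x j ≠ 0) :
    Rat L θ (fun j => (x j)⁻¹) := by
  have h1 : (fun j => (x j)⁻¹) = fun j => (N x)⁻¹ * C18.sh x j := by
    funext j
    have := mul_sh x j
    have h2 := N_ne_zero.2 h0
    field_simp [h0 j]
    exact this.symm
  rw [h1]
  exact Rat.smul (L.inv_mem (hx.N_mem h)) (hx.sh h)

theorem Rat.div (h : Cub L θ) (hx : Rat L θ x) (hy : Rat L θ y) (h0 : ∀ j, y j ≠ 0) :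
    Rat L θ (fun j => x j / y j) := by
  simpa [div_eq_mul_inv] using Rat.mul h hx (hy.inv h h0)

theorem Rat.pow (h : Cub L θ) (hx : Rat L θ x) (n : ℕ) : Rat L θ (fun j => x j ^ n) := by
  induction n with
  | zero => simpa using Rat.const L.one_mem
  | succ n ih => simpa [pow_succ] using Rat.mul h ih hx

theorem Rat.Dt (h : Cub L θ) (hx : Rat L θ x) : Rat L θ (Dt x) := by
  have h3 : (3 : A) ∈ L := ofNat_mem L 3
  have h2 : (2 : A) ∈ L := ofNat_mem L 2
  have : C18.Dt x = fun j => 3 * x j ^ 2 - 2 * T x * x j + T (C18.sh x) :=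
    funext fun j => Dt_eq x j
  rw [this]
  exact ((Rat.smul h3 (hx.pow h 2)).sub (Rat.smul (L.mul_mem h2 (hx.T_mem h)) hx)).add
    (Rat.const (hx.Tsh_mem h))

open Polynomial in
/-- the cubic polynomial over `L` -/
noncomputable def cubP (h : Cub L θ) : Polynomial L :=
  X ^ 3 - C ⟨_, h.e1⟩ * X ^ 2 + C ⟨_, h.e2⟩ * X - C ⟨_, h.e3⟩

open Polynomial in
theorem cubP_monic (h : Cub L θ) : (cubP h).Monic := by
  unfold cubP
  monicity!

open Polynomial in
theorem cubP_natDegree (h : Cub L θ) : (cubP h).natDegree = 3 := by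
  unfold cubP
  compute_degree!

open Polynomial in
theorem cubP_aeval (h : Cub L θ) (z : A) :
    aeval z (cubP h) = (z - θ 0) * (z - θ 1) * (z - θ 2) := by
  simp only [cubP, map_add, map_sub, map_mul, map_pow, aeval_X, aeval_C]
  change z ^ 3 - T θ * z ^ 2 + T (C18.sh θ) * z - N θ = _
  simp only [T, C18.sh, N, Matrix.cons_val_zero, Matrix.cons_val_one, Matrix.cons_val]
  ring

open Polynomial in
theorem cubP_irreducible (h : Cub L θ) (hθ : ∀ j, θ j ∉ L) : Irreducible (cubP h) := by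
  rw [(cubP_monic h).irreducible_iff_roots_eq_zero_of_degree_le_three
    (by rw [cubP_natDegree]; norm_num) (by rw [cubP_natDegree])]
  rw [Multiset.eq_zero_iff_forall_notMem]
  intro z hz
  rw [mem_roots (cubP_monic h).ne_zero, IsRoot.def] at hz
  have h1 : aeval (z : A) (cubP h) = 0 := by
    have : aeval (algebraMap L A z) (cubP h) = algebraMap L A (aeval z (cubP h)) :=
      aeval_algebraMap_apply A z (cubP h)
    rw [show (z : A) = algebraMap L A z from rfl, this, coe_aeval_eq_eval, hz, map_zero]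
  rw [cubP_aeval] at h1
  rcases mul_eq_zero.1 h1 with h2 | h2
  · rcases mul_eq_zero.1 h2 with h3 | h3
    · exact hθ 0 (sub_eq_zero.1 h3 ▸ z.2)
    · exact hθ 1 (sub_eq_zero.1 h3 ▸ z.2)
  · exact hθ 2 (sub_eq_zero.1 h2 ▸ z.2)

open Polynomial in
/-- no entry of `θ` in `L`: a quadratic relation over `L` is trivial -/
theorem coords_eq_zero (h : Cub L θ) (hθ : ∀ j, θ j ∉ L) {a b c : A} (ha : a ∈ L) (hb : b ∈ L)
    (hc : c ∈ L) {j : Fin 3} (e : a + b * θ j + c * θ j ^ 2 = 0) : a = 0 ∧ b = 0 ∧ c = 0 := by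
  have hirr := cubP_irreducible h hθ
  set P : Polynomial L := C ⟨a, ha⟩ + C ⟨b, hb⟩ * X + C ⟨c, hc⟩ * X ^ 2 with hP
  have hPa : aeval (θ j) P = 0 := by
    simp only [hP, map_add, map_mul, map_pow, aeval_X, aeval_C]
    exact e
  have hfa : aeval (θ j) (cubP h) = 0 := by
    rw [cubP_aeval]
    fin_cases j <;> simp
  have hmin : minpoly L (θ j) = cubP h :=
    (minpoly.eq_of_irreducible_of_monic hirr hfa (cubP_monic h)).symm
  have hdvd : cubP h ∣ P := hmin ▸ minpoly.dvd L (θ j) hPa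
  have hdeg : P.natDegree < (cubP h).natDegree := by
    rw [cubP_natDegree]
    have : P.natDegree ≤ 2 := by
      rw [hP]
      compute_degree
    omega
  have hP0 : P = 0 := Polynomial.eq_zero_of_dvd_of_natDegree_lt hdvd hdeg
  have c0 := congrArg (fun p => p.coeff 0) hP0
  have c1 := congrArg (fun p => p.coeff 1) hP0
  have c2 := congrArg (fun p => p.coeff 2) hP0
  simp [hP, coeff_X, coeff_C, coeff_X_pow] at c0 c1 c2
  exact ⟨congrArg Subtype.val c0, congrArg Subtype.val c1, congrArg Subtype.val c2⟩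

/-- no entry of `θ` in `L`: nonzero rational triples have no zero entry -/
theorem Rat.ne_zero (h : Cub L θ) (hθ : ∀ j, θ j ∉ L) (hx : Rat L θ x) {i : Fin 3}
    (hi : x i ≠ 0) (j : Fin 3) : x j ≠ 0 := by
  obtain ⟨a, ha, b, hb, c, hc, e⟩ := hx
  intro hj
  obtain ⟨h1, h2, h3⟩ := coords_eq_zero h hθ ha hb hc ((e j).symm.trans hj)
  apply hi
  rw [e i, h1, h2, h3]
  ring

/-- no entry of `θ` in `L`: two equal entries force a constant triple -/
theorem Rat.eq_of_eq (h : Cub L θ) (hθ : ∀ j, θ j ∉ L) (hx : Rat L θ x) {c : A} (hc : c ∈ L)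
    {i : Fin 3} (hi : x i = c) (j : Fin 3) : x j = c := by
  by_contra hj
  have h1 := hx.sub (Rat.const (θ := θ) hc)
  exact Rat.ne_zero h hθ h1 (i := j) (sub_ne_zero.2 hj) i (sub_eq_zero.2 hi)

/-- change of the generator -/
theorem Cub.change (h : Cub L θ) (hx : Rat L θ x) (hi : Function.Injective x) : Cub L x :=
  ⟨hi, hx.T_mem h, hx.Tsh_mem h, hx.N_mem h⟩

theorem Rat.change (h : Cub L θ) (hx : Rat L θ x) (hi : Function.Injective x)
    (hy : Rat L θ y) : Rat L x y := by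
  have hD := hx.Dt h
  have hD0 := Dt_ne hi
  exact ⟨_, (Rat.div h (Rat.mul h hy (hx.sh h)) hD hD0).T_mem h, _,
    (Rat.div h (Rat.mul h hy (hx.sub (Rat.const (hx.T_mem h)))) hD hD0).T_mem h, _,
    (Rat.div h hy hD hD0).T_mem h, fun j => lagrange hi y j⟩

theorem Rat.back (h : Cub L θ) (hx : Rat L θ x) (hy : Rat L x y) : Rat L θ y := by
  obtain ⟨a, ha, b, hb, c, hc, e⟩ := hy
  have : y = fun j => (a + b * x j) + c * x j ^ 2 := funext e
  rw [this]
  exact ((Rat.const ha).add (Rat.smul hb hx)).add (Rat.smul hc (hx.pow h 2))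

/-- three traces in `L` -/
theorem Rat.of_traces (h : Cub L θ) (h0 : T x ∈ L) (h1 : T (fun j => x j * θ j) ∈ L)
    (h2 : T (fun j => x j * θ j ^ 2) ∈ L) : Rat L θ x := by
  have hD0 := Dt_ne h.inj
  have key : ∀ w : Fin 3 → A, Rat L θ w → T (fun j => x j * w j) ∈ L := by
    rintro w ⟨a, ha, b, hb, c, hc, e⟩
    have : T (fun j => x j * w j) = a * T x + b * T (fun j => x j * θ j)
        + c * T (fun j => x j * θ j ^ 2) := by
      simp only [T, e]
      ring
    rw [this]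
    exact L.add_mem (L.add_mem (L.mul_mem ha h0) (L.mul_mem hb h1)) (L.mul_mem hc h2)
  have hD := (Rat.self (L := L) (θ := θ)).Dt h
  have g0 := key _ (Rat.div h (Rat.self.sh h) hD hD0)
  have g1 := key _ (Rat.div h (Rat.self.sub (Rat.const h.e1)) hD hD0)
  have g2 := key _ (Rat.div h (Rat.const L.one_mem) hD hD0)
  refine ⟨_, g0, _, g1, _, g2, fun j => ?_⟩
  rw [lagrange h.inj x j]
  congr 1
  · congr 1
    · simp [mul_div_assoc]
    · simp [mul_div_assoc]
  · simp [div_eq_mul_inv]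

end Pool.Agent.Helper16.C18
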