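import Pool.Agent.Helper16.C18.QC

/-!
# The cyclic cubic extension `E = L(θ 0)` and its automorphism
-/

namespace Pool.Agent.Helper16.C18

variable {A : Type*} [Field A] {K L : Subfield A} {θ x y : Fin 3 → A}

/-- square root of the discriminant -/
def dis (θ : Fin 3 → A) : A := (θ 0 - θ 1) * (θ 1 - θ 2) * (θ 2 - θ 0)

theorem dis_sq (h : Cub L θ) : dis θ ^ 2 ∈ L := by
  have e : dis θ ^ 2 = T θ ^ 2 * T (sh θ) ^ 2 - 4 * T (sh θ) ^ 3 - 4 * T θ ^ 3 * N θ
      + 18 * T θ * T (sh θ) * N θ - 27 * N θ ^ 2 := by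
    simp only [dis, T, sh, N, Matrix.cons_val_zero, Matrix.cons_val_one, Matrix.cons_val]
    ring
  rw [e]
  have e1 := h.e1
  have e2 := h.e2
  have e3 := h.e3
  refine L.sub_mem (L.add_mem (L.sub_mem (L.sub_mem ?_ ?_) ?_) ?_) ?_
  · exact L.mul_mem (L.pow_mem e1 2) (L.pow_mem e2 2)
  · exact L.mul_mem (ofNat_mem L 4) (L.pow_mem e2 3)
  · exact L.mul_mem (L.mul_mem (ofNat_mem L 4) (L.pow_mem e1 3)) e3
  · exact L.mul_mem (L.mul_mem (L.mul_mem (ofNat_mem L 18) e1) e2) e3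
  · exact L.mul_mem (ofNat_mem L 27) (L.pow_mem e3 2)

/-- the cyclic shift of `θ` is rational if the discriminant is a square -/
theorem Rat.shift_self [CharZero A] (h : Cub L θ) (hd : dis θ ∈ L) :
    Rat L θ (fun j => θ (j + 1)) := by
  have hD0 := Dt_ne h.inj
  have e : (fun j => θ (j + 1)) = fun j => (1 / 2 : A) * ((T θ - θ j) - dis θ / C18.Dt θ j) := by
    funext j
    have hj := hD0 j
    have key : dis θ = - C18.Dt θ j * (θ (j + 1) - θ (j + 2)) := by
      fin_cases j <;> simp [dis, C18.Dt] <;> ring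
    have key2 : T θ = θ j + θ (j + 1) + θ (j + 2) := by
      fin_cases j <;> simp [C18.T] <;> ring
    rw [key, key2]
    field_simp
    ring
  rw [e]
  exact Rat.smul (L.div_mem L.one_mem (ofNat_mem L 2))
    (((Rat.const h.e1).sub Rat.self).sub
      (Rat.div h (Rat.const hd) (Rat.self.Dt h) hD0))

theorem Rat.shift [CharZero A] (h : Cub L θ) (hd : dis θ ∈ L) (hx : Rat L θ x) :
    Rat L θ (fun j => x (j + 1)) := by
  obtain ⟨a, ha, b, hb, c, hc, e⟩ := hx
  have h1 := Rat.shift_self h hd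
  have : (fun j => x (j + 1)) = fun j => (a + b * θ (j + 1)) + c * θ (j + 1) ^ 2 :=
    funext fun j => e (j + 1)
  rw [this]
  exact ((Rat.const ha).add (Rat.smul hb h1)).add (Rat.smul hc (h1.pow h 2))

theorem Rat.unique (h : Cub L θ) (hθ : ∀ j, θ j ∉ L) (hx : Rat L θ x) (hy : Rat L θ y)
    {i : Fin 3} (hi : x i = y i) : x = y := by
  funext j
  by_contra hj
  exact Rat.ne_zero h hθ (hx.sub hy) (i := j) (sub_ne_zero.2 hj) i (sub_eq_zero.2 hi)

/-- the field `L(θ 0)` -/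
def EE (L : Subfield A) (θ : Fin 3 → A) (h : Cub L θ) (hθ : ∀ j, θ j ∉ L) : Subfield A where
  carrier := {z | ∃ x, Rat L θ x ∧ x 0 = z}
  mul_mem' := by
    rintro _ _ ⟨x, hx, rfl⟩ ⟨y, hy, rfl⟩
    exact ⟨_, Rat.mul h hx hy, rfl⟩
  one_mem' := ⟨_, Rat.const L.one_mem, rfl⟩
  add_mem' := by
    rintro _ _ ⟨x, hx, rfl⟩ ⟨y, hy, rfl⟩
    exact ⟨_, hx.add hy, rfl⟩
  zero_mem' := ⟨_, Rat.const L.zero_mem, rfl⟩
  neg_mem' := by
    rintro _ ⟨x, hx, rfl⟩
    exact ⟨_, hx.neg, rfl⟩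
  inv_mem' := by
    rintro _ ⟨x, hx, rfl⟩
    by_cases h0 : x 0 = 0
    · rw [h0, inv_zero]
      exact ⟨_, Rat.const L.zero_mem, rfl⟩
    · exact ⟨_, hx.inv h (Rat.ne_zero h hθ hx h0), rfl⟩

section sig

variable [CharZero A] (h : Cub L θ) (hθ : ∀ j, θ j ∉ L) (hd : dis θ ∈ L)

/-- the triple of conjugates of an element of `E` -/
noncomputable def XX (z : EE L θ h hθ) : Fin 3 → A := z.2.choose

omit [CharZero A] in
theorem XX_rat (z : EE L θ h hθ) : Rat L θ (XX h hθ z) := z.2.choose_spec.1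

omit [CharZero A] in
theorem XX_zero (z : EE L θ h hθ) : XX h hθ z 0 = z := z.2.choose_spec.2

theorem XX_eq {z : EE L θ h hθ} (hx : Rat L θ x) (e : x 0 = z) : XX h hθ z = x :=
  Rat.unique h hθ (XX_rat h hθ z) hx (i := 0) ((XX_zero h hθ z).trans e.symm)

include hd in
theorem mem_EE (hx : Rat L θ x) (j : Fin 3) : x j ∈ EE L θ h hθ := by
  have h1 := hx.shift h hd
  have h2 := h1.shift h hd
  fin_cases j
  · exact ⟨x, hx, rfl⟩
  · exact ⟨_, h1, rfl⟩
  · exact ⟨_, h2, rfl⟩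

/-- the automorphism as a ring homomorphism -/
noncomputable def sig0 : EE L θ h hθ →+* EE L θ h hθ where
  toFun z := ⟨XX h hθ z 1, mem_EE h hθ hd (XX_rat h hθ z) 1⟩
  map_one' := by
    apply Subtype.ext
    change XX h hθ 1 1 = 1
    rw [XX_eq h hθ (z := 1) (Rat.const L.one_mem) rfl]
  map_zero' := by
    apply Subtype.ext
    change XX h hθ 0 1 = 0
    rw [XX_eq h hθ (z := 0) (Rat.const L.zero_mem) rfl]
  map_add' z w := by
    apply Subtype.ext
    change XX h hθ (z + w) 1 = XX h hθ z 1 + XX h hθ w 1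
    rw [XX_eq h hθ (z := z + w) ((XX_rat h hθ z).add (XX_rat h hθ w))
      (by simp only [XX_zero]; rfl)]
  map_mul' z w := by
    apply Subtype.ext
    change XX h hθ (z * w) 1 = XX h hθ z 1 * XX h hθ w 1
    rw [XX_eq h hθ (z := z * w) (Rat.mul h (XX_rat h hθ z) (XX_rat h hθ w))
      (by simp only [XX_zero]; rfl)]

theorem sig0_apply (hx : Rat L θ x) (j : Fin 3) :
    sig0 h hθ hd ⟨x j, mem_EE h hθ hd hx j⟩ = ⟨x (j + 1), mem_EE h hθ hd hx (j + 1)⟩ := by
  apply Subtype.ext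
  change XX h hθ ⟨x j, _⟩ 1 = x (j + 1)
  have h1 := hx.shift h hd
  have h2 := h1.shift h hd
  fin_cases j
  · rw [XX_eq h hθ hx rfl]
    rfl
  · rw [XX_eq h hθ h1 rfl]
    rfl
  · rw [XX_eq h hθ h2 rfl]
    rfl

theorem sig0_cube (z : EE L θ h hθ) : sig0 h hθ hd (sig0 h hθ hd (sig0 h hθ hd z)) = z := by
  have h1 := XX_rat h hθ z
  have e : z = ⟨XX h hθ z 0, mem_EE h hθ hd h1 0⟩ := Subtype.ext (XX_zero h hθ z).symm
  conv_lhs => rw [e]
  rw [sig0_apply h hθ hd h1, sig0_apply h hθ hd h1, sig0_apply h hθ hd h1]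
  conv_rhs => rw [e]
  rfl

/-- the automorphism of order three -/
noncomputable def sig : EE L θ h hθ ≃+* EE L θ h hθ where
  toFun := sig0 h hθ hd
  invFun z := sig0 h hθ hd (sig0 h hθ hd z)
  left_inv z := sig0_cube h hθ hd z
  right_inv z := sig0_cube h hθ hd z
  map_mul' := map_mul _
  map_add' := map_add _

theorem sig_apply (hx : Rat L θ x) (j : Fin 3) :
    sig h hθ hd ⟨x j, mem_EE h hθ hd hx j⟩ = ⟨x (j + 1), mem_EE h hθ hd hx (j + 1)⟩ :=
  sig0_apply h hθ hd hx j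

theorem sig_cube (z : EE L θ h hθ) : sig h hθ hd (sig h hθ hd (sig h hθ hd z)) = z :=
  sig0_cube h hθ hd z

omit [CharZero A] in
theorem le_EE : L ≤ EE L θ h hθ := fun z hz => ⟨fun _ => z, Rat.const hz, rfl⟩

theorem sig_of_mem {z : A} (hz : z ∈ L) :
    sig h hθ hd ⟨z, le_EE h hθ hz⟩ = ⟨z, le_EE h hθ hz⟩ :=
  sig_apply h hθ hd (x := fun _ => z) (Rat.const hz) 0

theorem mem_of_sig {z : EE L θ h hθ} (e : sig h hθ hd z = z) : (z : A) ∈ L := by
  have h1 := XX_rat h hθ z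
  have e0 : XX h hθ z 0 = z := XX_zero h hθ z
  have e1 : XX h hθ z 1 = z := congrArg Subtype.val e
  have e2 : XX h hθ z 2 = z := by
    have h2 : sig h hθ hd (sig h hθ hd z) = z := by rw [e, e]
    have h3 : z = ⟨XX h hθ z 0, mem_EE h hθ hd h1 0⟩ := Subtype.ext (XX_zero h hθ z).symm
    have h4 : sig h hθ hd (sig h hθ hd ⟨XX h hθ z 0, mem_EE h hθ hd h1 0⟩)
        = ⟨XX h hθ z 2, mem_EE h hθ hd h1 2⟩ := by
      rw [sig_apply h hθ hd h1, sig_apply h hθ hd h1]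
      rfl
    rw [← h3, h2] at h4
    exact (congrArg Subtype.val h4).symm
  have : Rat L θ (fun _ => (z : A)) := by
    have h5 : XX h hθ z = fun _ => (z : A) := by
      funext j
      fin_cases j
      · exact e0
      · exact e1
      · exact e2
    rw [← h5]
    exact h1
  exact this.const_mem h.inj

end sig

end Pool.Agent.Helper16.C18
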