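import Pool.Agent.Helper16.C18.Quad

/-!
# The quadratic closure
-/

namespace Pool.Agent.Helper16.C18

variable {A : Type*} [Field A] {K L : Subfield A} {θ x y : Fin 3 → A}

/-- `Q` is closed under square roots and reached from every field `L`, `K ≤ L ≤ Q`, by quadratic
steps and unions of chains -/
structure QC (K Q : Subfield A) : Prop where
  le : K ≤ Q
  sq : ∀ s, s ^ 2 ∈ Q → s ∈ Q
  ind : ∀ (L : Subfield A) (P : Subfield A → Prop), K ≤ L → L ≤ Q → P L →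
        (∀ (M : Subfield A) (s : A) (hs : s ^ 2 ∈ M), L ≤ M → M ≤ Q → P M → P (qext M s hs)) →
        (∀ c : Set (Subfield A), IsChain (· ≤ ·) c → c.Nonempty →
          (∀ M ∈ c, L ≤ M ∧ M ≤ Q ∧ P M) → P (sSup c)) → P Q

theorem exists_QC (K : Subfield A) : ∃ Q, QC K Q := by
  obtain ⟨Q, h1, h2, h3⟩ := exists_qclosed K
  exact ⟨Q, h1, h2, h3⟩

theorem mem_sSup_chain {c : Set (Subfield A)} (hc : IsChain (· ≤ ·) c) (hn : c.Nonempty) {z : A} :
    z ∈ sSup c ↔ ∃ M ∈ c, z ∈ M :=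
  Subfield.mem_sSup_of_directedOn hn hc.directedOn

variable {Q : Subfield A}

theorem QC.noroot [CharZero A] (hQ : QC K Q) (h : Cub K θ) (hθ : ∀ j, θ j ∉ K) :
    ∀ j, θ j ∉ Q := by
  refine hQ.ind K (fun M => ∀ j, θ j ∉ M) le_rfl hQ.le hθ ?_ ?_
  · intro M s hs hKM _ hM
    exact noroot_qext (h.mono hKM) hM
  · intro c hc hn hP j hj
    obtain ⟨M, hM, hj'⟩ := (mem_sSup_chain hc hn).1 hj
    exact (hP M hM).2.2 j hj'

theorem QC.descend (hQ : QC K Q) (hKL : K ≤ L) (hLQ : L ≤ Q) (h : Cub L θ) {η : A} (hη : η ∈ L)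
    (h1 : Nm Q θ η) : Nm L θ η := by
  refine hQ.ind L (fun M => Nm M θ η → Nm L θ η) hKL hLQ id ?_ ?_ h1
  · intro M s hs hLM _ hM h2
    exact hM (h2.descend (h.mono hLM) (hLM hη))
  · intro c hc hn hP h2
    obtain ⟨v, ⟨a, ha, b, hb, d, hd, e⟩, e'⟩ := h2
    obtain ⟨M1, hM1, ha'⟩ := (mem_sSup_chain hc hn).1 ha
    obtain ⟨M2, hM2, hb'⟩ := (mem_sSup_chain hc hn).1 hb
    obtain ⟨M3, hM3, hd'⟩ := (mem_sSup_chain hc hn).1 hd
    obtain ⟨M4, hM4, h14, h24⟩ := hc.directedOn M1 hM1 M2 hM2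
    obtain ⟨M5, hM5, h45, h35⟩ := hc.directedOn M4 hM4 M3 hM3
    exact (hP M5 hM5).2.2 ⟨v, ⟨a, h45 (h14 ha'), b, h45 (h24 hb'), d, h35 hd', e⟩, e'⟩

theorem QC.alg (hQ : QC K Q) : ∀ z ∈ Q, IsAlgebraic K z := by
  refine hQ.ind K (fun M => ∀ z ∈ M, IsAlgebraic K z) le_rfl hQ.le ?_ ?_ ?_
  · intro z hz
    exact isAlgebraic_algebraMap (⟨z, hz⟩ : K)
  · rintro M s hs - - hM z ⟨a, ha, b, hb, rfl⟩
    have h1 : IsAlgebraic K s := (hM _ hs).of_pow (by norm_num)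
    exact (hM a ha).add ((hM b hb).mul h1)
  · intro c hc hn hP z hz
    obtain ⟨M, hM, hz'⟩ := (mem_sSup_chain hc hn).1 hz
    exact (hP M hM).2.2 z hz'

theorem sf_map_mono {B : Type*} [Field B] {ι : A →+* B} (h : K ≤ L) : K.map ι ≤ L.map ι := by
  rintro _ ⟨a, ha, rfl⟩
  exact ⟨a, h ha, rfl⟩

/-- transport to a bigger field in which the images of the elements of `A` are closed under
square roots -/
theorem QC.map (hQ : QC K Q) {B : Type*} [Field B] (ι : A →+* B)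
    (hsq : ∀ s : B, ∀ a : A, s ^ 2 = ι a → ∃ b, s = ι b) : QC (K.map ι) (Q.map ι) := by
  refine ⟨sf_map_mono hQ.le, ?_, ?_⟩
  · rintro s ⟨a, ha, e⟩
    obtain ⟨b, rfl⟩ := hsq s a e.symm
    refine ⟨b, hQ.sq b ?_, rfl⟩
    have : b ^ 2 = a := ι.injective (by rw [map_pow, ← e])
    rw [this]
    exact ha
  · intro L P hKL hLQ hPL h1 h2
    have hLe : (L.comap ι).map ι = L := by
      ext z
      constructor
      · rintro ⟨w, hw, rfl⟩
        exact hw
      · intro hz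
        obtain ⟨w, hw, rfl⟩ := hLQ hz
        exact ⟨w, hz, rfl⟩
    refine hQ.ind (L.comap ι) (fun M => P (M.map ι)) ?_ ?_ ?_ ?_ ?_
    · intro z hz
      exact hKL ⟨z, hz, rfl⟩
    · intro z hz
      obtain ⟨w, hw, e⟩ := hLQ hz
      rw [ι.injective e.symm]
      exact hw
    · rw [hLe]
      exact hPL
    · intro M s hs hLM hMQ hM
      have hs' : (ι s) ^ 2 ∈ M.map ι := ⟨s ^ 2, hs, by simp⟩
      have e : (qext M s hs).map ι = qext (M.map ι) (ι s) hs' := by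
        ext z
        constructor
        · rintro ⟨_, ⟨a, ha, b, hb, rfl⟩, rfl⟩
          exact ⟨ι a, ⟨a, ha, rfl⟩, ι b, ⟨b, hb, rfl⟩, by simp⟩
        · rintro ⟨_, ⟨a, ha, rfl⟩, _, ⟨b, hb, rfl⟩, rfl⟩
          exact ⟨a + b * s, ⟨a, ha, b, hb, rfl⟩, by simp⟩
      rw [e]
      refine h1 _ _ hs' ?_ (sf_map_mono hMQ) hM
      rw [← hLe]
      exact sf_map_mono hLM
    · intro c hc hn hP
      have e : (sSup c).map ι = sSup ((fun M : Subfield A => M.map ι) '' c) := by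
        rw [sSup_image]
        exact (Subfield.gc_map_comap ι).l_sSup
      rw [e]
      refine h2 _ ?_ (hn.image _) ?_
      · rintro _ ⟨M, hM, rfl⟩ _ ⟨M', hM', rfl⟩ hne
        rcases hc hM hM' (fun e => hne (by rw [e])) with h3 | h3
        · exact Or.inl (sf_map_mono h3)
        · exact Or.inr (sf_map_mono h3)
      · rintro _ ⟨M, hM, rfl⟩
        obtain ⟨h3, h4, h5⟩ := hP M hM
        refine ⟨?_, sf_map_mono h4, h5⟩
        rw [← hLe]
        exact sf_map_mono h3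

end Pool.Agent.Helper16.C18
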