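import Pool.Agent.Helper16.C18.Base

/-!
# Quadratic extensions, norms, the quadratic closure
-/

namespace Pool.Agent.Helper16.C18

variable {A : Type*} [Field A] {K L : Subfield A} {θ x y : Fin 3 → A}

/-- the field `L(s)`, `s ^ 2 ∈ L` -/
def qext (L : Subfield A) (s : A) (hs : s ^ 2 ∈ L) : Subfield A where
  carrier := {x | ∃ a ∈ L, ∃ b ∈ L, x = a + b * s}
  mul_mem' := by
    rintro _ _ ⟨a, ha, b, hb, rfl⟩ ⟨c, hc, d, hd, rfl⟩
    exact ⟨a * c + b * d * s ^ 2, L.add_mem (L.mul_mem ha hc) (L.mul_mem (L.mul_mem hb hd) hs),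
      a * d + b * c, L.add_mem (L.mul_mem ha hd) (L.mul_mem hb hc), by ring⟩
  one_mem' := ⟨1, L.one_mem, 0, L.zero_mem, by ring⟩
  add_mem' := by
    rintro _ _ ⟨a, ha, b, hb, rfl⟩ ⟨c, hc, d, hd, rfl⟩
    exact ⟨a + c, L.add_mem ha hc, b + d, L.add_mem hb hd, by ring⟩
  zero_mem' := ⟨0, L.zero_mem, 0, L.zero_mem, by ring⟩
  neg_mem' := by
    rintro _ ⟨a, ha, b, hb, rfl⟩
    exact ⟨-a, L.neg_mem ha, -b, L.neg_mem hb, by ring⟩
  inv_mem' := by
    rintro _ ⟨a, ha, b, hb, rfl⟩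
    by_cases h0 : a + b * s = 0
    · rw [h0, inv_zero]
      exact ⟨0, L.zero_mem, 0, L.zero_mem, by ring⟩
    · by_cases h1 : a - b * s = 0
      · have h2 : a + b * s = 2 * a := by linear_combination -h1
        rw [h2]
        exact ⟨(2 * a)⁻¹, L.inv_mem (L.mul_mem (ofNat_mem L 2) ha), 0, L.zero_mem, by ring⟩
      · have h3 : a ^ 2 - b ^ 2 * s ^ 2 ∈ L :=
          L.sub_mem (L.pow_mem ha 2) (L.mul_mem (L.pow_mem hb 2) hs)
        refine ⟨a * (a ^ 2 - b ^ 2 * s ^ 2)⁻¹, L.mul_mem ha (L.inv_mem h3),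
          -b * (a ^ 2 - b ^ 2 * s ^ 2)⁻¹, L.mul_mem (L.neg_mem hb) (L.inv_mem h3), ?_⟩
        have h4 : a ^ 2 - b ^ 2 * s ^ 2 = (a + b * s) * (a - b * s) := by ring
        rw [h4]
        field_simp
        ring

theorem mem_qext {s : A} {hs : s ^ 2 ∈ L} {z : A} :
    z ∈ qext L s hs ↔ ∃ a ∈ L, ∃ b ∈ L, z = a + b * s := Iff.rfl

theorem le_qext {s : A} {hs : s ^ 2 ∈ L} : L ≤ qext L s hs :=
  fun z hz => ⟨z, hz, 0, L.zero_mem, by ring⟩

theorem self_mem_qext {s : A} {hs : s ^ 2 ∈ L} : s ∈ qext L s hs :=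
  ⟨0, L.zero_mem, 1, L.one_mem, by ring⟩

theorem qext_le {M : Subfield A} {s : A} {hs : s ^ 2 ∈ L} (h : L ≤ M) (h' : s ∈ M) :
    qext L s hs ≤ M := by
  rintro _ ⟨a, ha, b, hb, rfl⟩
  exact M.add_mem (h ha) (M.mul_mem (h hb) h')

theorem qext_coords {s : A} (hs' : s ∉ L) {a b : A} (ha : a ∈ L) (hb : b ∈ L)
    (e : a + b * s = 0) : a = 0 ∧ b = 0 := by
  by_cases h : b = 0
  · subst h
    exact ⟨by simpa using e, rfl⟩
  · exfalso
    apply hs'
    have : s = -a / b := by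
      field_simp
      linear_combination e
    rw [this]
    exact L.div_mem (L.neg_mem ha) hb

/-- rational triples over `L(s)` -/
theorem rat_qext {s : A} {hs : s ^ 2 ∈ L} :
    Rat (qext L s hs) θ x ↔ ∃ p r, Rat L θ p ∧ Rat L θ r ∧ ∀ j, x j = p j + r j * s := by
  constructor
  · rintro ⟨_, ⟨a, ha, a', ha', rfl⟩, _, ⟨b, hb, b', hb', rfl⟩, _, ⟨c, hc, c', hc', rfl⟩, e⟩
    exact ⟨fun j => a + b * θ j + c * θ j ^ 2, fun j => a' + b' * θ j + c' * θ j ^ 2,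
      ⟨a, ha, b, hb, c, hc, fun j => rfl⟩, ⟨a', ha', b', hb', c', hc', fun j => rfl⟩,
      fun j => by rw [e]; ring⟩
  · rintro ⟨p, r, ⟨a, ha, b, hb, c, hc, e⟩, ⟨a', ha', b', hb', c', hc', e'⟩, e2⟩
    exact ⟨a + a' * s, ⟨a, ha, a', ha', rfl⟩, b + b' * s, ⟨b, hb, b', hb', rfl⟩,
      c + c' * s, ⟨c, hc, c', hc', rfl⟩, fun j => by rw [e2, e, e']; ring⟩

/-- a cubic without root in `L` has no root in `L(s)` -/
theorem noroot_qext [CharZero A] (h : Cub L θ) (hθ : ∀ j, θ j ∉ L) {s : A} {hs : s ^ 2 ∈ L} :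
    ∀ j, θ j ∉ qext L s hs := by
  -- by a root of the cubic polynomial in `L(s)` and its conjugate the third root is in `L`
  by_cases hs' : s ∈ L
  · intro j hj
    exact hθ j (qext_le le_rfl hs' hj)
  rintro j ⟨a, ha, b, hb, e⟩
  have e1 := h.e1
  have e2 := h.e2
  have e3 := h.e3
  have hb0 : b ≠ 0 := by
    rintro rfl
    apply hθ j
    rw [e]
    simpa using ha
  have hr := Cub.root (θ := θ) j
  rw [e] at hr
  have c1 : a ^ 3 + 3 * a * b ^ 2 * s ^ 2 - T θ * (a ^ 2 + b ^ 2 * s ^ 2) + T (sh θ) * a - N θ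
      ∈ L := by
    have h3 := ofNat_mem L 3
    exact L.sub_mem (L.add_mem (L.sub_mem (L.add_mem (L.pow_mem ha 3) (L.mul_mem (L.mul_mem
      (L.mul_mem h3 ha) (L.pow_mem hb 2)) hs)) (L.mul_mem e1 (L.add_mem (L.pow_mem ha 2)
      (L.mul_mem (L.pow_mem hb 2) hs)))) (L.mul_mem e2 ha)) e3
  have c2 : 3 * a ^ 2 * b + b ^ 3 * s ^ 2 - T θ * (2 * a * b) + T (sh θ) * b ∈ L := by
    have h3 := ofNat_mem L 3
    have h2 := ofNat_mem L 2
    exact L.add_mem (L.sub_mem (L.add_mem (L.mul_mem (L.mul_mem h3 (L.pow_mem ha 2)) hb)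
      (L.mul_mem (L.pow_mem hb 3) hs)) (L.mul_mem e1 (L.mul_mem (L.mul_mem h2 ha) hb)))
      (L.mul_mem e2 hb)
  obtain ⟨d1, d2⟩ := qext_coords hs' c1 c2 (by linear_combination hr)
  have hconj : ((a - b * s) - θ 0) * ((a - b * s) - θ 1) * ((a - b * s) - θ 2) = 0 := by
    have : ((a - b * s) - θ 0) * ((a - b * s) - θ 1) * ((a - b * s) - θ 2)
        = (a - b * s) ^ 3 - T θ * (a - b * s) ^ 2 + T (sh θ) * (a - b * s) - N θ := by
      simp only [T, C18.sh, N, Matrix.cons_val_zero, Matrix.cons_val_one, Matrix.cons_val]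
      ring
    rw [this]
    linear_combination d1 - s * d2
  have hs0 : s ≠ 0 := fun h0 => hs' (h0 ▸ L.zero_mem)
  have hne : a - b * s ≠ θ j := by
    rw [e]
    intro h0
    have : (2 : A) * (b * s) = 0 := by linear_combination -h0
    rcases mul_eq_zero.1 this with h1 | h1
    · exact two_ne_zero h1
    · exact (mul_ne_zero hb0 hs0) h1
  -- the third root
  have third : ∀ i k l : Fin 3, T θ = θ i + θ k + θ l → θ i = a + b * s → θ k = a - b * s →
      θ l ∈ L := by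
    intro i k l h1 h2 h3
    have : θ l = T θ - 2 * a := by
      rw [h1, h2, h3]
      ring
    rw [this]
    exact L.sub_mem e1 (L.mul_mem (ofNat_mem L 2) ha)
  have t0 : T θ = θ 0 + θ 1 + θ 2 := rfl
  rcases mul_eq_zero.1 hconj with h1 | h1
  · rcases mul_eq_zero.1 h1 with h2 | h2
    · have h3 := (sub_eq_zero.1 h2).symm
      fin_cases j
      · exact hne h3.symm
      · exact hθ 2 (third 1 0 2 (by rw [t0]; ring) e h3)
      · exact hθ 1 (third 2 0 1 (by rw [t0]; ring) e h3)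
    · have h3 := (sub_eq_zero.1 h2).symm
      fin_cases j
      · exact hθ 2 (third 0 1 2 (by rw [t0]) e h3)
      · exact hne h3.symm
      · exact hθ 0 (third 2 1 0 (by rw [t0]; ring) e h3)
  · have h3 := (sub_eq_zero.1 h1).symm
    fin_cases j
    · exact hθ 1 (third 0 2 1 (by rw [t0]; ring) e h3)
    · exact hθ 0 (third 1 2 0 (by rw [t0]; ring) e h3)
    · exact hne h3.symm

/-- `η` is a norm of the cubic algebra over `L` -/
def Nm (L : Subfield A) (θ : Fin 3 → A) (η : A) : Prop := ∃ v, Rat L θ v ∧ N v = η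

theorem Nm.mono {η : A} (h : Nm K θ η) (hKL : K ≤ L) : Nm L θ η := by
  obtain ⟨v, hv, e⟩ := h
  exact ⟨v, hv.mono hKL, e⟩

theorem Nm.mul (h : Cub L θ) {η ζ : A} (h1 : Nm L θ η) (h2 : Nm L θ ζ) : Nm L θ (η * ζ) := by
  obtain ⟨v, hv, rfl⟩ := h1
  obtain ⟨w, hw, rfl⟩ := h2
  exact ⟨_, Rat.mul h hv hw, by simp [N]; ring⟩

theorem Nm.inv (h : Cub L θ) {η : A} (h1 : Nm L θ η) : Nm L θ η⁻¹ := by
  obtain ⟨v, hv, rfl⟩ := h1
  by_cases h0 : N v = 0
  · refine ⟨fun _ => 0, Rat.const L.zero_mem, ?_⟩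
    simp [N] at h0 ⊢
    tauto
  · exact ⟨_, hv.inv h (N_ne_zero.1 h0), by simp only [N, mul_inv]⟩

theorem Nm.div (h : Cub L θ) {η ζ : A} (h1 : Nm L θ η) (h2 : Nm L θ ζ) : Nm L θ (η / ζ) := by
  rw [div_eq_mul_inv]
  exact h1.mul h (h2.inv h)

theorem Nm.pow (h : Cub L θ) {η : A} (h1 : Nm L θ η) (n : ℕ) : Nm L θ (η ^ n) := by
  induction n with
  | zero => exact ⟨fun _ => 1, Rat.const L.one_mem, by simp [N]⟩
  | succ n ih => rw [pow_succ]; exact ih.mul h h1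

theorem Nm.cube {η : A} (h1 : η ∈ L) : Nm L θ (η ^ 3) :=
  ⟨fun _ => η, Rat.const h1, by simp [N]; ring⟩

/-- squares: `η = (η²)² / η³` -/
theorem Nm.of_sq (h : Cub L θ) {η : A} (h1 : η ∈ L) (h2 : Nm L θ (η ^ 2)) : Nm L θ η := by
  by_cases h0 : η = 0
  · subst h0
    exact ⟨fun _ => 0, Rat.const L.zero_mem, by simp [N]⟩
  · have := (h2.mul h h2).div h (Nm.cube h1)
    have e : η ^ 2 * η ^ 2 / η ^ 3 = η := by field_simp
    rwa [e] at this

/-- conjugation: `p + r s` and `p - r s` have conjugate norms -/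
theorem N_conj (p r : Fin 3 → A) (s : A) :
    N (fun j => p j + r j * s) = (N p + T (fun j => p j * sh r j) * s ^ 2)
      + (T (fun j => r j * sh p j) + N r * s ^ 2) * s := by
  simp only [N, T, sh, Matrix.cons_val_zero, Matrix.cons_val_one, Matrix.cons_val]
  ring

/-- if `N (p + r s) = η + ζ s` then `N (p - r s) = η - ζ s` -/
theorem N_conj' (h : Cub L θ) {p r : Fin 3 → A} (hp : Rat L θ p) (hr : Rat L θ r) {s : A}
    (hs : s ^ 2 ∈ L) (hs' : s ∉ L) {η ζ : A} (hη : η ∈ L) (hζ : ζ ∈ L)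
    (e : N (fun j => p j + r j * s) = η + ζ * s) : N (fun j => p j - r j * s) = η - ζ * s := by
  rw [N_conj] at e
  have h1 : N p + T (fun j => p j * sh r j) * s ^ 2 ∈ L :=
    L.add_mem (hp.N_mem h) (L.mul_mem ((Rat.mul h hp (hr.sh h)).T_mem h) hs)
  have h2 : T (fun j => r j * sh p j) + N r * s ^ 2 ∈ L :=
    L.add_mem ((Rat.mul h hr (hp.sh h)).T_mem h) (L.mul_mem (hr.N_mem h) hs)
  obtain ⟨e1, e2⟩ := qext_coords hs' (L.sub_mem h1 hη) (L.sub_mem h2 hζ)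
    (by linear_combination e)
  have e3 := N_conj p r (-s)
  have e4 : (fun j => p j + r j * -s) = fun j => p j - r j * s := by
    funext j
    ring
  rw [e4] at e3
  rw [e3]
  linear_combination e1 - s * e2

/-- quadratic descent -/
theorem Nm.descend (h : Cub L θ) {s : A} {hs : s ^ 2 ∈ L} {η : A} (hη : η ∈ L)
    (h1 : Nm (qext L s hs) θ η) : Nm L θ η := by
  by_cases hs' : s ∈ L
  · exact h1.mono (qext_le le_rfl hs')
  · apply Nm.of_sq h hη
    obtain ⟨v, hv, e⟩ := h1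
    obtain ⟨p, r, hp, hr, e'⟩ := rat_qext.1 hv
    have e1 : N (fun j => p j + r j * s) = η + 0 * s := by
      rw [← funext e', e]
      ring
    have e2 := N_conj' h hp hr hs hs' hη L.zero_mem e1
    refine ⟨fun j => p j ^ 2 - s ^ 2 * r j ^ 2,
      (hp.pow h 2).sub (Rat.smul hs (hr.pow h 2)), ?_⟩
    have : N (fun j => p j ^ 2 - s ^ 2 * r j ^ 2)
        = N (fun j => p j + r j * s) * N (fun j => p j - r j * s) := by
      simp only [N]
      ring
    rw [this, e1, e2]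
    ring

/-- induction principle: a property of subfields that passes to `M(s)`, `s² ∈ M`, and to unions
of chains holds for a field closed under square roots. -/
theorem exists_qclosed (K : Subfield A) :
    ∃ Q : Subfield A, K ≤ Q ∧ (∀ s, s ^ 2 ∈ Q → s ∈ Q) ∧
      ∀ (L : Subfield A) (P : Subfield A → Prop), K ≤ L → L ≤ Q → P L →
        (∀ (M : Subfield A) (s : A) (hs : s ^ 2 ∈ M), L ≤ M → M ≤ Q → P M → P (qext M s hs)) →
        (∀ c : Set (Subfield A), IsChain (· ≤ ·) c → c.Nonempty →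
          (∀ M ∈ c, L ≤ M ∧ M ≤ Q ∧ P M) → P (sSup c)) → P Q := by
  classical
  let F : Set (Subfield A) := {M | K ≤ M ∧ ∀ s, s ^ 2 ∈ M → s ∈ M}
  refine ⟨sInf F, ?_, ?_, ?_⟩
  · exact le_sInf fun M hM => hM.1
  · intro s hs
    rw [Subfield.mem_sInf] at hs ⊢
    exact fun M hM => hM.2 s (hs M hM)
  · intro L P hKL hLQ hPL h1 h2
    have hQ : ∀ s, s ^ 2 ∈ sInf F → s ∈ sInf F := by
      intro s hs
      rw [Subfield.mem_sInf] at hs ⊢
      exact fun M hM => hM.2 s (hs M hM)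
    obtain ⟨M, hLM, hM⟩ := zorn_le_nonempty₀ {M : Subfield A | L ≤ M ∧ M ≤ sInf F ∧ P M} (by
      intro c hc hch y hy
      refine ⟨sSup c, ⟨?_, ?_, ?_⟩, fun z hz => le_sSup hz⟩
      · exact (hc hy).1.trans (le_sSup hy)
      · exact sSup_le fun M hM => (hc hM).2.1
      · exact h2 c hch ⟨y, hy⟩ hc) L ⟨le_rfl, hLQ, hPL⟩
    have hMc : ∀ s, s ^ 2 ∈ M → s ∈ M := by
      intro s hs
      have h3 : s ∈ sInf F := hQ s (hM.prop.2.1 hs)
      have h4 : qext M s hs ≤ M := hM.le_of_ge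
        ⟨hM.prop.1.trans le_qext, qext_le hM.prop.2.1 h3,
          h1 M s hs hM.prop.1 hM.prop.2.1 hM.prop.2.2⟩ le_qext
      exact h4 self_mem_qext
    have h5 : sInf F = M := le_antisymm (sInf_le ⟨hKL.trans hM.prop.1, hMc⟩) hM.prop.2.1
    rw [h5]
    exact hM.prop.2.2

end Pool.Agent.Helper16.C18
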